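import Mathlib

/-!
Definitions for effective results on integer points of plane curves of genus at least 2.
-/

namespace Pool.Agent.H8.Siegel

open MvPolynomial

/-- The field of all algebraic numbers. -/
abbrev Qbar : Type := AlgebraicClosure ℚ

/-- The everywhere regular differentials of a field extension `K / k`: the Kaehler
differentials `w` of `K` over `k` that, for every valuation ring `O` of `K` containing `k`,
are sums of terms `f * d g` with `f` and `g` in `O`. For the function field `K` of a smooth
projective curve over an algebraically closed field `k` of characteristic zero these are the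
global regular differentials of the curve, and their dimension over `k` is the genus. -/
noncomputable def regularDifferentials (k K : Type) [Field k] [Field K] [Algebra k K] :
    Submodule k (Ω[K⁄k]) where
  carrier := {w | ∀ O : ValuationSubring K, (∀ a : k, algebraMap k K a ∈ O) →
    w ∈ AddSubgroup.closure {v | ∃ f ∈ O, ∃ g ∈ O, v = f • KaehlerDifferential.D k K g}}
  zero_mem' := fun _ _ => AddSubgroup.zero_mem _
  add_mem' := fun ha hb O hO => AddSubgroup.add_mem _ (ha O hO) (hb O hO)
  smul_mem' := by
    intro c w hw O hO
    refine AddSubgroup.closure_induction (p := fun v _ => c • v ∈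
      AddSubgroup.closure {v | ∃ f ∈ O, ∃ g ∈ O, v = f • KaehlerDifferential.D k K g})
      ?_ ?_ ?_ ?_ (hw O hO)
    · rintro _ ⟨f, hf, g, hg, rfl⟩
      refine AddSubgroup.subset_closure
        ⟨algebraMap k K c * f, O.mul_mem _ _ (hO c) hf, g, hg, ?_⟩
      rw [← smul_smul, algebraMap_smul]
    · rw [smul_zero]; exact AddSubgroup.zero_mem _
    · intro a b _ _ ha hb
      rw [smul_add]; exact AddSubgroup.add_mem _ ha hb
    · intro a _ ha
      rw [smul_neg]; exact AddSubgroup.neg_mem _ ha

/-- `F` is absolutely irreducible: irreducible over the field of algebraic numbers. -/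
def AbsIrreducible (F : MvPolynomial (Fin 2) ℤ) : Prop :=
  Irreducible (map (Int.castRingHom Qbar) F)

/-- The curve `F = 0` has genus `g`. Here `K` is the function field of the curve over the
algebraic numbers: it is generated by two elements `x`, `y` whose ideal of polynomial
relations is generated by `F`. -/
def HasGenus (F : MvPolynomial (Fin 2) ℤ) (g : ℕ) : Prop :=
  ∃ (K : Type) (_ : Field K) (_ : Algebra Qbar K) (x y : K),
    RingHom.ker (aeval ![x, y] : MvPolynomial (Fin 2) Qbar →ₐ[Qbar] K) =
      Ideal.span {map (Int.castRingHom Qbar) F} ∧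
    IntermediateField.adjoin Qbar {x, y} = ⊤ ∧
    Module.finrank Qbar (regularDifferentials Qbar K) = g

/-- The set of integer points `(x, y)` of the curve `F = 0`. -/
def intPoints (F : MvPolynomial (Fin 2) ℤ) : Set (ℤ × ℤ) := {p | eval ![p.1, p.2] F = 0}

/-- A polynomial is given to an algorithm as a finite list of terms `(a, b, i, j)` of natural
numbers, each standing for `(a - b) * x ^ i * y ^ j`. -/
abbrev Code : Type := List (ℕ × ℕ × ℕ × ℕ)

/-- The polynomial given by a list of terms. -/
noncomputable def toPoly (c : Code) : MvPolynomial (Fin 2) ℤ :=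
  (c.map fun t => C ((t.1 : ℤ) - (t.2.1 : ℤ)) * X 0 ^ t.2.2.1 * X 1 ^ t.2.2.2).sum

/-- The class of polynomials of the effectivity problem: `F` is absolutely irreducible, its
genus is at least 2 and belongs to the set `S`, and `F = 0` has only finitely many integer
points. By Siegel's theorem the last condition follows from the others. -/
def InClass (S : Set ℕ) (F : MvPolynomial (Fin 2) ℤ) : Prop :=
  AbsIrreducible F ∧ (∃ g ∈ S, 2 ≤ g ∧ HasGenus F g) ∧ (intPoints F).Finite

/-- For all `i`, `j` the coefficient of `x ^ i * y ^ j` in `F` is divisible by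
`M ^ (i + j)`. -/
def DivBy (M : ℕ) (F : MvPolynomial (Fin 2) ℤ) : Prop :=
  ∀ m : Fin 2 →₀ ℕ, (M : ℤ) ^ (m 0 + m 1) ∣ coeff m F

end Pool.Agent.H8.Siegel
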