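import Mathlib
import Pool.Agent.H8.SiegelDefs

namespace Pool.Agent.H8.Siegel

open MvPolynomial

/-! Operations on codes. -/

abbrev T4 : Type := ℕ × ℕ × ℕ × ℕ

noncomputable def term (t : T4) : MvPolynomial (Fin 2) ℤ :=
  C ((t.1 : ℤ) - (t.2.1 : ℤ)) * X 0 ^ t.2.2.1 * X 1 ^ t.2.2.2

theorem toPoly_eq (c : Code) : toPoly c = (c.map term).sum := rfl

@[simp] theorem toPoly_nil : toPoly [] = 0 := rfl

@[simp] theorem toPoly_cons (t : T4) (c : Code) : toPoly (t :: c) = term t + toPoly c := by
  simp [toPoly_eq]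

@[simp] theorem toPoly_append (c d : Code) : toPoly (c ++ d) = toPoly c + toPoly d := by
  simp [toPoly_eq]

def mulT (s t : T4) : T4 :=
  (s.1 * t.1 + s.2.1 * t.2.1, s.1 * t.2.1 + s.2.1 * t.1, s.2.2.1 + t.2.2.1, s.2.2.2 + t.2.2.2)

def mulC (c d : Code) : Code := c.flatMap fun s => d.map fun t => mulT s t

def powC (c : Code) (n : ℕ) : Code := (fun d => mulC c d)^[n] [(1, 0, 0, 0)]

def compC (c P Q : Code) : Code :=
  c.flatMap fun t => mulC [(t.1, t.2.1, 0, 0)] (mulC (powC P t.2.2.1) (powC Q t.2.2.2))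

theorem term_mulT (s t : T4) : term (mulT s t) = term s * term t := by
  obtain ⟨a, b, i, j⟩ := s
  obtain ⟨a', b', i', j'⟩ := t
  simp only [term, mulT]
  push_cast
  simp only [map_sub, map_add, map_mul, pow_add]
  ring

theorem toPoly_flatMap (c : Code) (f : T4 → Code) :
    toPoly (c.flatMap f) = (c.map fun t => toPoly (f t)).sum := by
  induction c with
  | nil => simp
  | cons t c ih => simp [List.flatMap_cons, ih]

theorem toPoly_mulC (c d : Code) : toPoly (mulC c d) = toPoly c * toPoly d := by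
  have h : ∀ s : T4, toPoly (d.map fun t => mulT s t) = term s * toPoly d := by
    intro s
    induction d with
    | nil => simp
    | cons t d ih => simp [ih, term_mulT, mul_add]
  rw [mulC, toPoly_flatMap]
  simp only [h]
  rw [List.sum_map_mul_right, toPoly_eq c]

theorem toPoly_powC (c : Code) (n : ℕ) : toPoly (powC c n) = toPoly c ^ n := by
  induction n with
  | zero => simp [powC, term]
  | succ n ih =>
    rw [powC, Function.iterate_succ_apply', toPoly_mulC]
    rw [powC] at ih
    rw [ih, pow_succ']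

theorem toPoly_compC (c P Q : Code) :
    toPoly (compC c P Q) = aeval ![toPoly P, toPoly Q] (toPoly c) := by
  rw [compC, toPoly_flatMap, toPoly_eq c, map_list_sum, List.map_map]
  congr 1
  apply List.map_congr_left
  intro t _
  simp [toPoly_mulC, toPoly_powC, term, mul_assoc]

/-- value of the positive terms -/
def posV (c : Code) (x y : ℕ) : ℕ := (c.map fun t => t.1 * x ^ t.2.2.1 * y ^ t.2.2.2).sum
def negV (c : Code) (x y : ℕ) : ℕ := (c.map fun t => t.2.1 * x ^ t.2.2.1 * y ^ t.2.2.2).sum

theorem eval_toPoly (c : Code) (x y : ℕ) :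
    eval ![(x : ℤ), (y : ℤ)] (toPoly c) = (posV c x y : ℤ) - negV c x y := by
  induction c with
  | nil => simp [posV, negV]
  | cons t c ih =>
    rw [toPoly_cons, map_add, ih]
    simp [posV, negV, term]
    ring

/-- natural solutions -/
def NatSol (c : Code) (x y : ℕ) : Prop := posV c x y = negV c x y

instance (c : Code) (x y : ℕ) : Decidable (NatSol c x y) := by unfold NatSol; infer_instance

theorem natSol_iff (c : Code) (x y : ℕ) : NatSol c x y ↔ ((x : ℤ), (y : ℤ)) ∈ intPoints (toPoly c) := by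
  rw [intPoints, Set.mem_setOf_eq]
  simp only
  rw [eval_toPoly, sub_eq_zero, NatSol]
  exact_mod_cast Iff.rfl

/-! Primitive recursiveness. -/

theorem primrec_pow : Primrec₂ ((· ^ ·) : ℕ → ℕ → ℕ) :=
  Primrec₂.unpaired'.1 Nat.Primrec.pow

theorem primrec_mulT : Primrec₂ mulT := by
  unfold mulT
  have s1 : Primrec fun p : T4 × T4 => p.1.1 := Primrec.fst.comp Primrec.fst
  have s2 : Primrec fun p : T4 × T4 => p.1.2.1 := Primrec.fst.comp (Primrec.snd.comp Primrec.fst)
  have s3 : Primrec fun p : T4 × T4 => p.1.2.2.1 :=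
    Primrec.fst.comp (Primrec.snd.comp (Primrec.snd.comp Primrec.fst))
  have s4 : Primrec fun p : T4 × T4 => p.1.2.2.2 :=
    Primrec.snd.comp (Primrec.snd.comp (Primrec.snd.comp Primrec.fst))
  have t1 : Primrec fun p : T4 × T4 => p.2.1 := Primrec.fst.comp Primrec.snd
  have t2 : Primrec fun p : T4 × T4 => p.2.2.1 := Primrec.fst.comp (Primrec.snd.comp Primrec.snd)
  have t3 : Primrec fun p : T4 × T4 => p.2.2.2.1 :=
    Primrec.fst.comp (Primrec.snd.comp (Primrec.snd.comp Primrec.snd))
  have t4 : Primrec fun p : T4 × T4 => p.2.2.2.2 :=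
    Primrec.snd.comp (Primrec.snd.comp (Primrec.snd.comp Primrec.snd))
  exact Primrec.pair (Primrec.nat_add.comp (Primrec.nat_mul.comp s1 t1) (Primrec.nat_mul.comp s2 t2))
    (Primrec.pair (Primrec.nat_add.comp (Primrec.nat_mul.comp s1 t2) (Primrec.nat_mul.comp s2 t1))
      (Primrec.pair (Primrec.nat_add.comp s3 t3) (Primrec.nat_add.comp s4 t4)))

theorem primrec_mulC : Primrec₂ mulC := by
  unfold mulC
  refine Primrec.list_flatMap Primrec.fst ?_
  refine Primrec.list_map (Primrec.snd.comp Primrec.fst) ?_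
  exact primrec_mulT.comp (Primrec.snd.comp Primrec.fst) Primrec.snd

theorem primrec_powC : Primrec₂ powC := by
  unfold powC
  exact Primrec.nat_iterate Primrec.snd (Primrec.const _)
    (primrec_mulC.comp (Primrec.fst.comp Primrec.fst) Primrec.snd)

theorem primrec_compC : Primrec fun p : Code × Code × Code => compC p.1 p.2.1 p.2.2 := by
  unfold compC
  refine Primrec.list_flatMap Primrec.fst ?_
  have c0 : Primrec fun q : (Code × Code × Code) × T4 => q.1.2.1 :=
    Primrec.fst.comp (Primrec.snd.comp Primrec.fst)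
  have c1 : Primrec fun q : (Code × Code × Code) × T4 => q.1.2.2 :=
    Primrec.snd.comp (Primrec.snd.comp Primrec.fst)
  have t1 : Primrec fun p : (Code × Code × Code) × T4 => p.2.1 := Primrec.fst.comp Primrec.snd
  have t2 : Primrec fun p : (Code × Code × Code) × T4 => p.2.2.1 :=
    Primrec.fst.comp (Primrec.snd.comp Primrec.snd)
  have t3 : Primrec fun p : (Code × Code × Code) × T4 => p.2.2.2.1 :=
    Primrec.fst.comp (Primrec.snd.comp (Primrec.snd.comp Primrec.snd))
  have t4 : Primrec fun p : (Code × Code × Code) × T4 => p.2.2.2.2 :=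
    Primrec.snd.comp (Primrec.snd.comp (Primrec.snd.comp Primrec.snd))
  refine primrec_mulC.comp ?_ (primrec_mulC.comp (primrec_powC.comp c0 t3) (primrec_powC.comp c1 t4))
  exact Primrec.list_cons.comp (Primrec.pair t1 (Primrec.pair t2 (Primrec.const _))) (Primrec.const _)

theorem sum_map_eq_foldr {α : Type*} (l : List α) (f : α → ℕ) :
    (l.map f).sum = l.foldr (fun a s => f a + s) 0 := by
  induction l with
  | nil => rfl
  | cons a l ih => simp [ih]

theorem primrec_posV : Primrec fun p : Code × ℕ × ℕ => posV p.1 p.2.1 p.2.2 := by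
  unfold posV
  simp only [sum_map_eq_foldr]
  refine Primrec.list_foldr Primrec.fst (Primrec.const 0)
    (h := fun (p : Code × ℕ × ℕ) (q : T4 × ℕ) => q.1.1 * p.2.1 ^ q.1.2.2.1 * p.2.2 ^ q.1.2.2.2 + q.2) ?_
  have x : Primrec fun q : (Code × ℕ × ℕ) × (T4 × ℕ) => q.1.2.1 :=
    Primrec.fst.comp (Primrec.snd.comp Primrec.fst)
  have y : Primrec fun q : (Code × ℕ × ℕ) × (T4 × ℕ) => q.1.2.2 :=
    Primrec.snd.comp (Primrec.snd.comp Primrec.fst)
  have t : Primrec fun q : (Code × ℕ × ℕ) × (T4 × ℕ) => q.2.1 := Primrec.fst.comp Primrec.snd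
  have s : Primrec fun q : (Code × ℕ × ℕ) × (T4 × ℕ) => q.2.2 := Primrec.snd.comp Primrec.snd
  have t1 := Primrec.fst.comp t
  have t3 := Primrec.fst.comp (Primrec.snd.comp (Primrec.snd.comp t))
  have t4 := Primrec.snd.comp (Primrec.snd.comp (Primrec.snd.comp t))
  exact Primrec.nat_add.comp (Primrec.nat_mul.comp (Primrec.nat_mul.comp t1 (primrec_pow.comp x t3))
    (primrec_pow.comp y t4)) s

theorem primrec_negV : Primrec fun p : Code × ℕ × ℕ => negV p.1 p.2.1 p.2.2 := by
  unfold negV
  simp only [sum_map_eq_foldr]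
  refine Primrec.list_foldr Primrec.fst (Primrec.const 0)
    (h := fun (p : Code × ℕ × ℕ) (q : T4 × ℕ) => q.1.2.1 * p.2.1 ^ q.1.2.2.1 * p.2.2 ^ q.1.2.2.2 + q.2) ?_
  have x : Primrec fun q : (Code × ℕ × ℕ) × (T4 × ℕ) => q.1.2.1 :=
    Primrec.fst.comp (Primrec.snd.comp Primrec.fst)
  have y : Primrec fun q : (Code × ℕ × ℕ) × (T4 × ℕ) => q.1.2.2 :=
    Primrec.snd.comp (Primrec.snd.comp Primrec.fst)
  have t : Primrec fun q : (Code × ℕ × ℕ) × (T4 × ℕ) => q.2.1 := Primrec.fst.comp Primrec.snd
  have s : Primrec fun q : (Code × ℕ × ℕ) × (T4 × ℕ) => q.2.2 := Primrec.snd.comp Primrec.snd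
  have t2 := Primrec.fst.comp (Primrec.snd.comp t)
  have t3 := Primrec.fst.comp (Primrec.snd.comp (Primrec.snd.comp t))
  have t4 := Primrec.snd.comp (Primrec.snd.comp (Primrec.snd.comp t))
  exact Primrec.nat_add.comp (Primrec.nat_mul.comp (Primrec.nat_mul.comp t2 (primrec_pow.comp x t3))
    (primrec_pow.comp y t4)) s

/-- all pairs of numbers less than `B` -/
def boxList (B : ℕ) : List (ℕ × ℕ) :=
  (List.range B).flatMap fun x => (List.range B).map fun y => (x, y)

/-- the list of natural solutions with both coordinates less than `B` -/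
def solList (c : Code) (B : ℕ) : List (ℕ × ℕ) :=
  (boxList B).flatMap fun p => if NatSol c p.1 p.2 then [p] else []

theorem primrec_boxList : Primrec boxList := by
  unfold boxList
  refine Primrec.list_flatMap Primrec.list_range ?_
  refine Primrec.list_map (Primrec.list_range.comp Primrec.fst) ?_
  exact Primrec.pair (Primrec.snd.comp Primrec.fst) Primrec.snd

theorem primrec_solList : Primrec₂ solList := by
  unfold solList
  refine Primrec.list_flatMap (primrec_boxList.comp Primrec.snd) ?_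
  refine Primrec.ite (c := fun q : (Code × ℕ) × (ℕ × ℕ) => NatSol q.1.1 q.2.1 q.2.2) ?_
    (Primrec.list_cons.comp Primrec.snd (Primrec.const [])) (Primrec.const [])
  refine PrimrecRel.comp Primrec.eq ?_ ?_
  · exact primrec_posV.comp (Primrec.pair (Primrec.fst.comp Primrec.fst) Primrec.snd)
  · exact primrec_negV.comp (Primrec.pair (Primrec.fst.comp Primrec.fst) Primrec.snd)

theorem flatMap_ite {α : Type*} (l : List α) (p : α → Prop) [DecidablePred p] :
    (l.flatMap fun a => if p a then [a] else []) = l.filter fun a => p a := by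
  induction l with
  | nil => rfl
  | cons a l ih =>
    rw [List.flatMap_cons, ih]
    by_cases h : p a <;> simp [h]

theorem mem_boxList (B : ℕ) (p : ℕ × ℕ) : p ∈ boxList B ↔ p.1 < B ∧ p.2 < B := by
  obtain ⟨x, y⟩ := p
  simp [boxList]

theorem mem_solList (c : Code) (B : ℕ) (p : ℕ × ℕ) :
    p ∈ solList c B ↔ p.1 < B ∧ p.2 < B ∧ NatSol c p.1 p.2 := by
  rw [solList, flatMap_ite, List.mem_filter, mem_boxList]
  simp [and_assoc]

theorem nodup_boxList (B : ℕ) : (boxList B).Nodup := by
  rw [boxList, List.nodup_flatMap]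
  refine ⟨fun x _ => List.Nodup.map (fun a b h => by simpa using h) List.nodup_range, ?_⟩
  refine (List.nodup_range (n := B)).imp ?_
  intro a b hab
  simp only [Function.onFun, List.Disjoint, List.mem_map]
  rintro ⟨x, y⟩ ⟨y1, _, h1⟩ ⟨y2, _, h2⟩
  simp only [Prod.mk.injEq] at h1 h2
  exact hab (h1.1.trans h2.1.symm)

theorem nodup_solList (c : Code) (B : ℕ) : (solList c B).Nodup := by
  rw [solList, flatMap_ite]
  exact (nodup_boxList B).filter _

end Pool.Agent.H8.Siegel
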