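import Mathlib

/-!
One-dimensional greedy L2 sequence: real-variable analysis.
-/

namespace Pool.Agent.H8.Kritz1

open Finset

/-- Sum of the positive parts of `x - z i`, `i < n`. -/
noncomputable def G (z : ℕ → ℝ) (n : ℕ) (x : ℝ) : ℝ := ∑ i ∈ range n, max (x - z i) 0

/-- The potential which the greedy choice maximises. -/
noncomputable def Phi (z : ℕ → ℝ) (n : ℕ) (x : ℝ) : ℝ :=
  x / 2 - (n + 1) * x ^ 2 / 2 + G z n x

/-- Entropy type function. -/
noncomputable def E (p q : ℝ) : ℝ :=
  (p + q) * Real.log (p + q) - p * Real.log p - q * Real.log q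

lemma E_comm (p q : ℝ) : E p q = E q p := by
  unfold E; rw [add_comm p q]; ring

lemma E_zero (p : ℝ) : E p 0 = 0 := by
  unfold E; simp

/-- `s * log (1 + p / s)` is increasing. -/
lemma mul_log_mono {p t q : ℝ} (hp : 0 < p) (ht : 0 < t) (htq : t ≤ q) :
    t * (Real.log (p + t) - Real.log t) ≤ q * (Real.log (p + q) - Real.log q) := by
  have hq : 0 < q := lt_of_lt_of_le ht htq
  have h1 : Real.log (p + t) - Real.log t = Real.log (1 + p / t) := by
    rw [← Real.log_div (by positivity) (by positivity)]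
    congr 1; field_simp; ring
  have h2 : Real.log (p + q) - Real.log q = Real.log (1 + p / q) := by
    rw [← Real.log_div (by positivity) (by positivity)]
    congr 1; field_simp; ring
  rw [h1, h2]
  have hm1 : (1:ℝ) ∈ Set.Ioi (0:ℝ) := by simp
  have hm2 : 1 + p / t ∈ Set.Ioi (0:ℝ) := by simp only [Set.mem_Ioi]; positivity
  have ha : 0 ≤ 1 - t / q := by rw [sub_nonneg, div_le_one hq]; exact htq
  have hb : 0 ≤ t / q := by positivity
  have hc := strictConcaveOn_log_Ioi.concaveOn.2 hm1 hm2 ha hb (by ring)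
  simp only [smul_eq_mul, Real.log_one, mul_zero, zero_add, mul_one] at hc
  have h3 : 1 - t / q + t / q * (1 + p / t) = 1 + p / q := by
    field_simp; ring
  rw [h3] at hc
  have := mul_le_mul_of_nonneg_left hc hq.le
  calc t * Real.log (1 + p / t) = q * (t / q * Real.log (1 + p / t)) := by
        field_simp
    _ ≤ _ := this

lemma E_step {p t q : ℝ} (hp : 0 < p) (ht : 0 ≤ t) (htq : t ≤ q) (hq : 0 < q) :
    p * (q - t) ≤ (p + q) * (E p q - E p t) := by
  have hpq : 0 < p + q := by linarith
  have hpt : 0 < p + t := by linarith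
  have h1 : p * (q - t) ≤ (p + q) * (p * (Real.log (p + q) - Real.log (p + t))) := by
    have h := Real.one_sub_inv_le_log_of_pos (x := (p + q) / (p + t)) (by positivity)
    rw [Real.log_div hpq.ne' hpt.ne'] at h
    have h2 : (1 - ((p + q) / (p + t))⁻¹) * (p + q) = q - t := by
      field_simp; ring
    have h3 : q - t ≤ (Real.log (p + q) - Real.log (p + t)) * (p + q) := by
      rw [← h2]; exact mul_le_mul_of_nonneg_right h hpq.le
    nlinarith [mul_le_mul_of_nonneg_left h3 hp.le]
  have h2 : t * (Real.log (p + t) - Real.log t) ≤ q * (Real.log (p + q) - Real.log q) := by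
    rcases ht.eq_or_lt with h0 | h0
    · rw [← h0, zero_mul]
      apply mul_nonneg hq.le
      rw [sub_nonneg]
      exact Real.log_le_log hq (by linarith)
    · exact mul_log_mono hp h0 htq
  have h3 : E p q - E p t = p * (Real.log (p + q) - Real.log (p + t))
      + (q * (Real.log (p + q) - Real.log q) - t * (Real.log (p + t) - Real.log t)) := by
    unfold E; ring
  rw [h3]
  nlinarith [mul_nonneg hpq.le (sub_nonneg.2 h2)]

lemma E_nonneg {p q : ℝ} (hp : 0 < p) (hq : 0 < q) : 0 ≤ E p q := by
  have := E_step hp le_rfl hq.le hq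
  rw [E_zero, sub_zero, sub_zero] at this
  have h2 : 0 ≤ (p + q) * E p q := le_trans (by positivity) this
  exact nonneg_of_mul_nonneg_right h2 (by linarith)

/-- The abstract inductive step, all pieces to the right of `x`. -/
lemma core_step {p q t K X Ua Ub B Epq Ept : ℝ} (hp : 0 < p) (ht : 0 ≤ t) (htq : t < q)
    (hK : 0 ≤ K) (hX : X = B - Ua) (hUa : 0 ≤ Ua) (hUb : 0 ≤ Ub)
    (h1 : t * X + p * B ≤ (p + t) * Ept + K * (p * t))
    (hE : p * (q - t) ≤ (p + q) * (Epq - Ept)) :
    q * X + p * (B - Ub) + p * (q - t) ≤ (p + q) * Epq + K * (p * q) := by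
  have hpt : 0 < p + t := by linarith
  have key : (p + t) * (q * X + p * B) ≤ (p + q) * (t * X + p * B) := by
    have : 0 ≤ p * (q - t) * (B - X) := by
      apply mul_nonneg (mul_nonneg hp.le (by linarith)); rw [hX]; linarith
    nlinarith
  have key2 : (p + t) * (q * X + p * B) ≤ (p + q) * ((p + t) * Ept + K * (p * t)) :=
    key.trans (mul_le_mul_of_nonneg_left h1 (by linarith))
  have key3 : (p + q) * (K * (p * t)) ≤ (p + t) * (K * (p * q)) := by
    have : 0 ≤ K * p * (p * (q - t)) := by
      apply mul_nonneg (mul_nonneg hK hp.le) (mul_nonneg hp.le (by linarith))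
    nlinarith
  have key4 : (p + t) * (q * X + p * B) ≤ (p + t) * ((p + q) * Ept + K * (p * q)) := by
    nlinarith
  have key5 := le_of_mul_le_mul_left key4 hpt
  have : 0 ≤ p * Ub := mul_nonneg hp.le hUb
  nlinarith

lemma G_succ (z : ℕ → ℝ) (n : ℕ) (x : ℝ) : G z (n + 1) x = G z n x + max (x - z n) 0 := by
  unfold G; rw [sum_range_succ]

lemma Phi_succ (z : ℕ → ℝ) (n : ℕ) (x : ℝ) :
    Phi z (n + 1) x = Phi z n x - x ^ 2 / 2 + max (x - z n) 0 := by
  unfold Phi; rw [G_succ]; push_cast; ring

/-- Approximate convexity of the potential. -/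
def T (z : ℕ → ℝ) (n : ℕ) (K : ℝ) : Prop :=
  ∀ a x b : ℝ, 0 ≤ a → a < x → x < b → b ≤ 1 →
    (b - x) * (Phi z n a - Phi z n x) + (x - a) * (Phi z n b - Phi z n x)
      ≤ (b - a) * E (x - a) (b - x) + K * ((x - a) * (b - x))

lemma hat_le {a x b y : ℝ} (hax : a < x) (hxb : x < b) :
    (b - x) * (max (a - y) 0 - max (x - y) 0) + (x - a) * (max (b - y) 0 - max (x - y) 0)
      ≤ (x - a) * (b - x) := by
  rcases le_total y a with h1 | h1
  · rw [max_eq_left (by linarith), max_eq_left (by linarith), max_eq_left (by linarith)]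
    nlinarith [mul_pos (sub_pos.2 hax) (sub_pos.2 hxb)]
  · rcases le_total y x with h2 | h2
    · rw [max_eq_right (by linarith), max_eq_left (by linarith), max_eq_left (by linarith)]
      nlinarith [mul_nonneg (sub_nonneg.2 h2) (sub_pos.2 hxb).le]
    · rcases le_total y b with h3 | h3
      · rw [max_eq_right (by linarith), max_eq_right (by linarith), max_eq_left (by linarith)]
        nlinarith [mul_nonneg (sub_nonneg.2 h2) (sub_pos.2 hax).le]
      · rw [max_eq_right (by linarith), max_eq_right (by linarith), max_eq_right (by linarith)]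
        nlinarith [mul_pos (sub_pos.2 hax) (sub_pos.2 hxb)]

lemma T_base (z : ℕ → ℝ) (m : ℕ) : T z m m := by
  intro a x b ha hax hxb hb
  have hG : (b - x) * (G z m a - G z m x) + (x - a) * (G z m b - G z m x)
      ≤ m * ((x - a) * (b - x)) := by
    unfold G
    rw [← sum_sub_distrib, ← sum_sub_distrib, mul_sum, mul_sum, ← sum_add_distrib]
    calc _ ≤ ∑ _i ∈ range m, (x - a) * (b - x) := sum_le_sum (fun i _ => hat_le hax hxb)
      _ = _ := by simp
  have hE := E_nonneg (sub_pos.2 hax) (sub_pos.2 hxb)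
  have h1 : 0 ≤ (b - a) * E (x - a) (b - x) := mul_nonneg (by linarith) hE
  have h2 : 0 ≤ (m + 1 : ℝ) * ((x - a) * (b - x) * (b - a)) := by
    apply mul_nonneg (by positivity)
    apply mul_nonneg (mul_nonneg _ _) <;> linarith
  unfold Phi
  nlinarith

lemma T_succ {z : ℕ → ℝ} {n : ℕ} {K : ℝ} (hK : 0 ≤ K) (hT : T z n K)
    (hy0 : 0 ≤ z n) (hy1 : z n ≤ 1)
    (hmax : ∀ x, 0 ≤ x → x ≤ 1 → Phi z n x ≤ Phi z n (z n)) : T z (n + 1) K := by
  intro a x b ha hax hxb hb
  have hp : 0 < x - a := sub_pos.2 hax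
  have hq : 0 < b - x := sub_pos.2 hxb
  have hquad : 0 ≤ (x - a) * (b - x) * (b - a) := by
    apply mul_nonneg (mul_nonneg _ _) <;> linarith
  have hT0 := hT a x b ha hax hxb hb
  have hUa := hmax a ha (by linarith)
  have hUb := hmax b (by linarith) hb
  have hUx := hmax x (by linarith) (by linarith)
  rw [Phi_succ, Phi_succ, Phi_succ]
  set y := z n with hy
  have hpq : x - a + (b - x) = b - a := by ring
  rcases le_or_gt y a with h1 | h1
  · rw [max_eq_left (by linarith : (0:ℝ) ≤ x - y), max_eq_left (by linarith : (0:ℝ) ≤ a - y),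
      max_eq_left (by linarith : (0:ℝ) ≤ b - y)]
    nlinarith
  rcases le_or_gt b y with h2 | h2
  · rw [max_eq_right (by linarith : x - y ≤ (0:ℝ)), max_eq_right (by linarith : a - y ≤ (0:ℝ)),
      max_eq_right (by linarith : b - y ≤ (0:ℝ))]
    nlinarith
  rcases lt_trichotomy y x with h3 | h3 | h3
  · -- `a < y < x`
    rw [max_eq_left (by linarith : (0:ℝ) ≤ x - y), max_eq_right (by linarith : a - y ≤ (0:ℝ)),
      max_eq_left (by linarith : (0:ℝ) ≤ b - y)]
    have h := hT y x b hy0 h3 hxb hb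
    have hE := E_step (p := b - x) (t := x - y) (q := x - a) hq (by linarith) (by linarith) hp
    rw [E_comm (b - x) (x - a), E_comm (b - x) (x - y)] at hE
    have hc := core_step (p := b - x) (q := x - a) (t := x - y) (K := K)
      (X := Phi z n b - Phi z n x) (Ua := Phi z n y - Phi z n b) (Ub := Phi z n y - Phi z n a)
      (B := Phi z n y - Phi z n x) (Epq := E (x - a) (b - x)) (Ept := E (x - y) (b - x))
      hq (by linarith) (by linarith) hK (by ring) (by linarith) (by linarith)
      (by linarith) hE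
    nlinarith
  · -- `y = x`
    rw [← h3] at hT0 hax hxb hp hq hquad hpq ⊢
    rw [sub_self, max_self, max_eq_right (by linarith : a - y ≤ (0:ℝ)),
      max_eq_left (by linarith : (0:ℝ) ≤ b - y)]
    have hE := E_step (p := y - a) (t := 0) (q := b - y) hp le_rfl hq.le hq
    rw [E_zero] at hE
    have e1 : (b - y) * (Phi z n a - Phi z n y) ≤ 0 :=
      mul_nonpos_of_nonneg_of_nonpos hq.le (by linarith)
    have e2 : (y - a) * (Phi z n b - Phi z n y) ≤ 0 :=
      mul_nonpos_of_nonneg_of_nonpos hp.le (by linarith)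
    have e3 : 0 ≤ K * ((y - a) * (b - y)) := by positivity
    nlinarith
  · -- `x < y < b`
    rw [max_eq_right (by linarith : x - y ≤ (0:ℝ)), max_eq_right (by linarith : a - y ≤ (0:ℝ)),
      max_eq_left (by linarith : (0:ℝ) ≤ b - y)]
    have h := hT a x y ha hax h3 hy1
    have hE := E_step (p := x - a) (t := y - x) (q := b - x) hp (by linarith) (by linarith) hq
    have hc := core_step (p := x - a) (q := b - x) (t := y - x) (K := K)
      (X := Phi z n a - Phi z n x) (Ua := Phi z n y - Phi z n a) (Ub := Phi z n y - Phi z n b)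
      (B := Phi z n y - Phi z n x) (Epq := E (x - a) (b - x)) (Ept := E (x - a) (y - x))
      hp (by linarith) (by linarith) hK (by ring) (by linarith) (by linarith)
      (by linarith) hE
    nlinarith

lemma T_all {z : ℕ → ℝ} {m : ℕ} (hz : ∀ i, 0 ≤ z i ∧ z i ≤ 1)
    (hmax : ∀ n, m ≤ n → ∀ x, 0 ≤ x → x ≤ 1 → Phi z n x ≤ Phi z n (z n)) :
    ∀ n, m ≤ n → T z n m := by
  intro n hn
  induction n, hn using Nat.le_induction with
  | base => exact T_base z m
  | succ n hn ih => exact T_succ (by positivity) ih (hz n).1 (hz n).2 (hmax n hn)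

/-- Bound for the normalised entropy. -/
lemma E_bound {p q : ℝ} (hp : 0 < p) (hq : 0 < q) :
    (p + q) * E p q ≤ p * q * (2 + 2 * Real.log (p + q) - Real.log p - Real.log q) := by
  have h1 : Real.log ((p + q) / p) ≤ (p + q) / p - 1 := Real.log_le_sub_one_of_pos (by positivity)
  have h2 : Real.log ((p + q) / q) ≤ (p + q) / q - 1 := Real.log_le_sub_one_of_pos (by positivity)
  rw [Real.log_div (by positivity) hp.ne'] at h1
  rw [Real.log_div (by positivity) hq.ne'] at h2
  have e1 : p * (Real.log (p + q) - Real.log p) ≤ q := by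
    calc _ ≤ p * ((p + q) / p - 1) := mul_le_mul_of_nonneg_left h1 hp.le
      _ = q := by field_simp; ring
  have e2 : q * (Real.log (p + q) - Real.log q) ≤ p := by
    calc _ ≤ q * ((p + q) / q - 1) := mul_le_mul_of_nonneg_left h2 hq.le
      _ = p := by field_simp; ring
  unfold E
  nlinarith [mul_le_mul_of_nonneg_left e1 hp.le, mul_le_mul_of_nonneg_left e2 hq.le]

lemma G_mono (z : ℕ → ℝ) (n : ℕ) {x y : ℝ} (h : x ≤ y) : G z n x ≤ G z n y := by
  unfold G
  exact sum_le_sum fun i _ => max_le_max (by linarith) le_rfl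

lemma G_lip (z : ℕ → ℝ) (n : ℕ) {x y : ℝ} (h : x ≤ y) : G z n y - G z n x ≤ n * (y - x) := by
  unfold G
  rw [← sum_sub_distrib]
  calc _ ≤ ∑ _i ∈ range n, (y - x) := by
        apply sum_le_sum
        intro i _
        rcases le_total x (z i) with h1 | h1
        · rw [max_eq_right (by linarith : x - z i ≤ 0)]
          rcases le_total y (z i) with h2 | h2
          · rw [max_eq_right (by linarith)]; linarith
          · rw [max_eq_left (by linarith)]; linarith
        · rw [max_eq_left (by linarith : 0 ≤ x - z i), max_eq_left (by linarith : 0 ≤ y - z i)]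
          linarith
    _ = _ := by rw [sum_const, card_range, nsmul_eq_mul]

lemma pick_ge {z : ℕ → ℝ} {n : ℕ} (hy0 : 0 ≤ z n)
    (hmax : ∀ x, 0 ≤ x → x ≤ 1 → Phi z n x ≤ Phi z n (z n)) :
    1 / (2 * ((n : ℝ) + 1)) ≤ z n := by
  by_contra hcon
  push Not at hcon
  set y := z n with hy
  set y' := 1 / (2 * ((n : ℝ) + 1)) with hy'
  have hn : (0 : ℝ) < (n : ℝ) + 1 := by positivity
  have e : (n + 1 : ℝ) * y' = 1 / 2 := by rw [hy']; field_simp
  have hy'0 : 0 ≤ y' := by positivity
  have hy'1 : y' ≤ 1 := by nlinarith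
  have h1 := hmax y' hy'0 hy'1
  have h2 := G_mono z n hcon.le
  unfold Phi at h1
  have h3 : (y' - y) * (1 - (n + 1) * (y' + y)) ≤ 0 := by nlinarith
  have h4 : 0 < 1 - (n + 1 : ℝ) * (y' + y) := by nlinarith
  have h5 : 0 < (y' - y) * (1 - (n + 1) * (y' + y)) := mul_pos (by linarith) h4
  linarith

lemma pick_le {z : ℕ → ℝ} {n : ℕ} (hy1 : z n ≤ 1)
    (hmax : ∀ x, 0 ≤ x → x ≤ 1 → Phi z n x ≤ Phi z n (z n)) :
    z n ≤ 1 - 1 / (2 * ((n : ℝ) + 1)) := by
  by_contra hcon
  push Not at hcon
  set y := z n with hy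
  set d := 1 / (2 * ((n : ℝ) + 1)) with hd
  have hn : (0 : ℝ) < (n : ℝ) + 1 := by positivity
  have e : (n + 1 : ℝ) * d = 1 / 2 := by rw [hd]; field_simp
  have hd0 : 0 < d := by positivity
  have hd1 : d ≤ 1 / 2 := by nlinarith [Nat.cast_nonneg (α := ℝ) n]
  have h1 := hmax (1 - d) (by linarith) (by linarith)
  have h2 := G_lip z n hcon.le
  unfold Phi at h1
  have h3 : (y - (1 - d)) * ((n + 1) * (y + (1 - d)) - 1 - 2 * n) ≤ 0 := by nlinarith
  have h4 : 0 < (n + 1 : ℝ) * (y + (1 - d)) - 1 - 2 * n := by nlinarith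
  have h5 := mul_pos (sub_pos.2 hcon) h4
  linarith

lemma card_mul_le (w : ℕ → ℝ) (n : ℕ) {q h : ℝ} (hh : 0 ≤ h) :
    (((range n).filter (fun i => w i ≤ q)).card : ℝ) * h ≤ G w n (q + h) - G w n q := by
  unfold G
  rw [← sum_sub_distrib, card_filter, Nat.cast_sum, sum_mul]
  apply sum_le_sum
  intro i _
  split_ifs with h1
  · rw [max_eq_left (by linarith : 0 ≤ q + h - w i), max_eq_left (by linarith : 0 ≤ q - w i)]
    push_cast; linarith
  · push_cast
    rw [zero_mul, sub_nonneg]
    exact max_le_max (by linarith) le_rfl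

lemma G_small (w : ℕ → ℝ) (n : ℕ) {e : ℝ} (he : 0 ≤ e) (hw0 : ∀ i, 0 ≤ w i) :
    G w n e ≤ (((range n).filter (fun i => w i < e)).card : ℝ) * e := by
  unfold G
  rw [card_filter, Nat.cast_sum, sum_mul]
  apply sum_le_sum
  intro i _
  have := hw0 i
  split_ifs with h1
  · rw [max_eq_left (by linarith)]; push_cast; linarith
  · rw [max_eq_right (by linarith)]; push_cast; linarith

set_option maxHeartbeats 1000000 in
lemma count_core {w : ℕ → ℝ} {n : ℕ} {K K' : ℝ} (hn : 1 ≤ n) (hT : T w n K)
    (hw0 : ∀ i, 0 ≤ w i)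
    (hfew : (((range n).filter (fun i => w i < 1 / (2 * (n : ℝ)))).card : ℝ) ≤ K')
    {q : ℝ} (hq1 : 1 / (n : ℝ) ≤ q) (hq2 : q + 1 / (n : ℝ) ≤ 1) :
    (((range n).filter (fun i => w i ≤ q)).card : ℝ)
      ≤ n * q + 2 * Real.log n + 2 * K + K' + 9 := by
  have hn0 : (0 : ℝ) < n := by exact_mod_cast hn
  have hn1 : (1 : ℝ) ≤ n := by exact_mod_cast hn
  set A := (((range n).filter (fun i => w i ≤ q)).card : ℝ) with hA
  set h := 1 / (n : ℝ) with hh
  set e := 1 / (2 * (n : ℝ)) with he
  have hpos : 0 < h := by positivity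
  have hepos : 0 < e := by positivity
  have hhe : h = 2 * e := by rw [hh, he]; field_simp
  have hnh : (n : ℝ) * h = 1 := by rw [hh]; field_simp
  have hqe : q / 2 ≤ q - e := by linarith
  have hqe0 : 0 < q - e := by linarith
  have hq0 : 0 < q := by linarith
  have hcard := card_mul_le w n (q := q) hpos.le
  rw [← hA] at hcard
  have hG0 : G w n 0 = 0 := by
    unfold G
    apply sum_eq_zero
    intro i _
    have := hw0 i
    rw [max_eq_right (by linarith)]
  have hGe : G w n e ≤ K' * e :=
    (G_small w n hepos.le hw0).trans (mul_le_mul_of_nonneg_right hfew hepos.le)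
  have hP0 : Phi w n 0 = 0 := by unfold Phi; rw [hG0]; ring
  have hPe : Phi w n e ≤ e / 2 + K' * e := by
    unfold Phi
    have : 0 ≤ (n + 1 : ℝ) * e ^ 2 / 2 := by positivity
    linarith
  -- first triple
  have t1 := hT 0 e q le_rfl hepos (by linarith) (by linarith)
  have b1 := E_bound hepos hqe0
  rw [show e + (q - e) = q by ring] at b1
  rw [hP0, sub_zero, sub_zero, zero_sub] at t1
  set S1 := 1 / 2 + K' + K + (2 + 2 * Real.log q - Real.log e - Real.log (q - e)) with hS1
  have c1 : Phi w n q - Phi w n e ≤ (q - e) * S1 := by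
    have h1 : e * (Phi w n q - Phi w n e) ≤ e * ((q - e) * S1) := by
      have h2 : (q - e) * Phi w n e ≤ (q - e) * (e / 2 + K' * e) :=
        mul_le_mul_of_nonneg_left hPe hqe0.le
      rw [hS1]
      linarith
    exact le_of_mul_le_mul_left h1 hepos
  -- second triple
  have t2 := hT e q (q + h) hepos.le (by linarith) (by linarith) hq2
  have b2 := E_bound hqe0 hpos
  rw [show q + h - q = h by ring] at t2
  set S2 := K + (2 + 2 * Real.log (q - e + h) - Real.log (q - e) - Real.log h) with hS2
  have c2 : Phi w n (q + h) - Phi w n q ≤ h * (S1 + S2) := by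
    have h1 : (q - e) * (Phi w n (q + h) - Phi w n q) ≤ (q - e) * (h * (S1 + S2)) := by
      have h2 := mul_le_mul_of_nonneg_left c1 hpos.le
      rw [show q + h - e = q - e + h by ring] at t2
      rw [hS2]
      linarith
    exact le_of_mul_le_mul_left h1 hqe0
  have c3 : G w n (q + h) - G w n q
      ≤ h * (S1 + S2) - h / 2 + (n + 1) * (q * h + h ^ 2 / 2) := by
    unfold Phi at c2
    linarith
  have c4 : A * h ≤ (S1 + S2 - 1 / 2 + (n + 1) * (q + h / 2)) * h := by linarith
  have c5 : A ≤ S1 + S2 - 1 / 2 + (n + 1) * (q + h / 2) := le_of_mul_le_mul_right c4 hpos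
  -- logarithms
  have l2 : Real.log 2 < 0.6931471808 := Real.log_two_lt_d9
  have lh : Real.log h = - Real.log n := by rw [hh, one_div, Real.log_inv]
  have le' : Real.log e = - (Real.log 2 + Real.log n) := by
    rw [he, one_div, Real.log_inv, Real.log_mul (by norm_num) hn0.ne']
  have lqe : Real.log q - Real.log 2 ≤ Real.log (q - e) := by
    rw [← Real.log_div hq0.ne' (by norm_num)]
    exact Real.log_le_log (by positivity) hqe
  have lqh : Real.log (q - e + h) ≤ 0 := Real.log_nonpos (by linarith) (by linarith)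
  have hq1' : q ≤ 1 := by linarith
  have hh1 : h ≤ 1 := by nlinarith
  have c6 : (n + 1 : ℝ) * (q + h / 2) ≤ n * q + 2 := by
    have : (n + 1 : ℝ) * (q + h / 2) = n * q + q + (n * h) / 2 + h / 2 := by ring
    rw [this, hnh]; linarith
  rw [hS1, hS2, lh, le'] at c5
  linarith

lemma count_le {w : ℕ → ℝ} {n : ℕ} {K K' : ℝ} (hn : 1 ≤ n) (hT : T w n K) (hK : 0 ≤ K)
    (hw0 : ∀ i, 0 ≤ w i)
    (hfew : (((range n).filter (fun i => w i < 1 / (2 * (n : ℝ)))).card : ℝ) ≤ K')
    {q : ℝ} (hq0 : 0 ≤ q) :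
    (((range n).filter (fun i => w i ≤ q)).card : ℝ)
      ≤ n * q + 2 * Real.log n + 2 * K + K' + 10 := by
  have hn0 : (0 : ℝ) < n := by exact_mod_cast hn
  have hn1 : (1 : ℝ) ≤ n := by exact_mod_cast hn
  have hlog : 0 ≤ Real.log n := Real.log_nonneg hn1
  have hK' : 0 ≤ K' := le_trans (Nat.cast_nonneg _) hfew
  have htriv : (((range n).filter (fun i => w i ≤ q)).card : ℝ) ≤ n := by
    have := card_filter_le (range n) (fun i => w i ≤ q)
    rw [card_range] at this
    exact_mod_cast this
  have hnh : (n : ℝ) * (1 / n) = 1 := by field_simp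
  rcases le_or_gt (q + 1 / (n : ℝ)) 1 with h2 | h2
  · rcases le_or_gt (1 / (n : ℝ)) q with h1 | h1
    · have := count_core hn hT hw0 hfew h1 h2
      linarith
    · rcases Nat.eq_or_lt_of_le hn with h3 | h3
      · have : (n : ℝ) = 1 := by exact_mod_cast h3.symm
        rw [this] at htriv
        have : 0 ≤ (n : ℝ) * q := by positivity
        linarith
      · have hn2 : (2 : ℝ) ≤ n := by exact_mod_cast h3
        have h4 : 1 / (n : ℝ) + 1 / (n : ℝ) ≤ 1 := by
          rw [← two_mul, mul_one_div, div_le_one hn0]; exact hn2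
        have h5 := count_core hn hT hw0 hfew le_rfl h4
        rw [hnh] at h5
        have h6 : (((range n).filter (fun i => w i ≤ q)).card : ℝ)
            ≤ (((range n).filter (fun i => w i ≤ 1 / (n : ℝ))).card : ℝ) := by
          have : ((range n).filter (fun i => w i ≤ q))
              ⊆ ((range n).filter (fun i => w i ≤ 1 / (n : ℝ))) := by
            intro i hi
            rw [mem_filter] at hi ⊢
            exact ⟨hi.1, hi.2.trans h1.le⟩
          exact_mod_cast card_le_card this
        have : 0 ≤ (n : ℝ) * q := by positivity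
        linarith
  · have : (n : ℝ) * (q + 1 / n) ≥ n * 1 := mul_le_mul_of_nonneg_left h2.le hn0.le
    rw [mul_add, hnh] at this
    linarith

lemma G_reflect (z : ℕ → ℝ) (n : ℕ) (x : ℝ) :
    G (fun i => 1 - z i) n x = G z n (1 - x) - n * (1 - x) + ∑ i ∈ range n, z i := by
  unfold G
  have : ∀ i ∈ range n, max (x - (1 - z i)) 0 = max (1 - x - z i) 0 - (1 - x) + z i := by
    intro i _
    rcases le_total (1 - x) (z i) with h | h
    · rw [max_eq_left (by linarith), max_eq_right (by linarith)]; ring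
    · rw [max_eq_right (by linarith), max_eq_left (by linarith)]; ring
  rw [sum_congr rfl this, sum_add_distrib, sum_sub_distrib, sum_const, card_range, nsmul_eq_mul]

lemma Phi_reflect (z : ℕ → ℝ) (n : ℕ) (x : ℝ) :
    Phi (fun i => 1 - z i) n x = Phi z n (1 - x) + (∑ i ∈ range n, z i - n / 2) := by
  unfold Phi; rw [G_reflect]; ring

lemma T_reflect {z : ℕ → ℝ} {n : ℕ} {K : ℝ} (hT : T z n K) : T (fun i => 1 - z i) n K := by
  intro a x b ha hax hxb hb
  have h := hT (1 - b) (1 - x) (1 - a) (by linarith) (by linarith) (by linarith) (by linarith)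
  rw [show 1 - x - (1 - b) = b - x by ring, show 1 - a - (1 - x) = x - a by ring,
    show 1 - a - (1 - b) = b - a by ring, E_comm] at h
  rw [Phi_reflect, Phi_reflect, Phi_reflect]
  linarith

lemma continuous_G (z : ℕ → ℝ) (n : ℕ) : Continuous (G z n) := by
  unfold G; fun_prop

lemma continuous_Phi (z : ℕ → ℝ) (n : ℕ) : Continuous (Phi z n) := by
  unfold Phi
  have := continuous_G z n
  fun_prop

/-- Main one-dimensional estimate. -/
theorem main_one {z : ℕ → ℝ} {m : ℕ} (hz : ∀ i, 0 ≤ z i ∧ z i < 1)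
    (hmax : ∀ n, m ≤ n → ∀ x, 0 ≤ x → x < 1 → Phi z n x ≤ Phi z n (z n))
    {N : ℕ} (hN : 1 ≤ N) {q : ℝ} (hq0 : 0 ≤ q) (hq1 : q ≤ 1) :
    |(((range N).filter (fun i => z i < q)).card : ℝ) - N * q|
      ≤ 2 * Real.log N + 3 * m + 10 := by
  have hN0 : (0 : ℝ) < N := by exact_mod_cast hN
  have hN1 : (1 : ℝ) ≤ N := by exact_mod_cast hN
  have hlog : 0 ≤ Real.log N := Real.log_nonneg hN1
  have hmax' : ∀ n, m ≤ n → ∀ x, 0 ≤ x → x ≤ 1 → Phi z n x ≤ Phi z n (z n) := by
    intro n hn x hx0 hx1
    have hcl : IsClosed {x | Phi z n x ≤ Phi z n (z n)} :=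
      isClosed_le (continuous_Phi z n) continuous_const
    have hsub : Set.Ico (0 : ℝ) 1 ⊆ {x | Phi z n x ≤ Phi z n (z n)} :=
      fun x hx => hmax n hn x hx.1 hx.2
    have := hcl.closure_subset_iff.2 hsub
    rw [closure_Ico (by norm_num)] at this
    exact this ⟨hx0, hx1⟩
  have htriv : (((range N).filter (fun i => z i < q)).card : ℝ) ≤ N := by
    have := card_filter_le (range N) (fun i => z i < q)
    rw [card_range] at this
    exact_mod_cast this
  have hnn : (0 : ℝ) ≤ (((range N).filter (fun i => z i < q)).card : ℝ) := Nat.cast_nonneg _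
  have hNq : (N : ℝ) * q ≤ N := by nlinarith
  have hNq0 : 0 ≤ (N : ℝ) * q := by positivity
  rcases lt_or_ge N m with hNm | hNm
  · have : (N : ℝ) ≤ m := by exact_mod_cast hNm.le
    rw [abs_le]
    constructor <;> linarith
  have hT := T_all (fun i => ⟨(hz i).1, (hz i).2.le⟩) hmax' N hNm
  have hm0 : (0 : ℝ) ≤ m := Nat.cast_nonneg m
  -- few points close to the ends
  have hfew : ∀ w : ℕ → ℝ, (∀ i, m ≤ i → 1 / (2 * ((i : ℝ) + 1)) ≤ w i) →
      (((range N).filter (fun i => w i < 1 / (2 * (N : ℝ)))).card : ℝ) ≤ m := by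
    intro w hw
    have : ((range N).filter (fun i => w i < 1 / (2 * (N : ℝ)))) ⊆ range m := by
      intro i hi
      rw [mem_filter, mem_range] at hi
      rw [mem_range]
      by_contra hcon
      push Not at hcon
      have h1 := hw i hcon
      have h2 : 1 / (2 * (N : ℝ)) ≤ 1 / (2 * ((i : ℝ) + 1)) := by
        apply one_div_le_one_div_of_le (by positivity)
        have : (i : ℝ) + 1 ≤ N := by exact_mod_cast hi.1
        linarith
      linarith [hi.2]
    have h3 := card_le_card this
    rw [card_range] at h3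
    exact_mod_cast h3
  have hfew1 := hfew z (fun i hi => pick_ge (hz i).1 (hmax' i hi))
  have hfew2 := hfew (fun i => 1 - z i) (fun i hi => by
    have := pick_le (hz i).2.le (hmax' i hi)
    linarith)
  have hup := count_le hN hT hm0 (fun i => (hz i).1) hfew1 hq0
  have hlo := count_le (q := 1 - q) hN (T_reflect hT) hm0
    (fun i => by linarith [(hz i).2]) hfew2 (by linarith)
  have h1 : (((range N).filter (fun i => z i < q)).card : ℝ)
      ≤ (((range N).filter (fun i => z i ≤ q)).card : ℝ) := by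
    have : ((range N).filter (fun i => z i < q)) ⊆ ((range N).filter (fun i => z i ≤ q)) := by
      intro i hi
      rw [mem_filter] at hi ⊢
      exact ⟨hi.1, hi.2.le⟩
    exact_mod_cast card_le_card this
  have h2 : (((range N).filter (fun i => z i < q)).card : ℝ)
      + (((range N).filter (fun i => 1 - z i ≤ 1 - q)).card : ℝ) = N := by
    have e1 : ((range N).filter (fun i => 1 - z i ≤ 1 - q))
        = ((range N).filter (fun i => ¬ z i < q)) := by
      ext i
      simp only [mem_filter]
      constructor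
      · rintro ⟨h1, h2⟩; exact ⟨h1, by rw [not_lt]; linarith⟩
      · rintro ⟨h1, h2⟩; rw [not_lt] at h2; exact ⟨h1, by linarith⟩
    rw [e1]
    have := card_filter_add_card_filter_not (s := range N) (fun i => z i < q)
    rw [card_range] at this
    exact_mod_cast this
  rw [abs_le]
  constructor
  · have : (N : ℝ) * (1 - q) = N - N * q := by ring
    linarith
  · linarith

end Pool.Agent.H8.Kritz1
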