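import Mathlib
import Pool.Agent.H8.SiegelDefs

namespace Pool.Agent.H8.Siegel

open MvPolynomial

/-- affine substitution -/
noncomputable def aff {R : Type} [CommRing R] (a u b v : R) :
    MvPolynomial (Fin 2) R →ₐ[R] MvPolynomial (Fin 2) R :=
  aeval ![C a + C u * X 0, C b + C v * X 1]

noncomputable def affEquiv {k : Type} [Field k] (a u b v : k) (hu : u ≠ 0) (hv : v ≠ 0) :
    MvPolynomial (Fin 2) k ≃ₐ[k] MvPolynomial (Fin 2) k :=
  AlgEquiv.ofAlgHom (aff a u b v) (aff (-(a * u⁻¹)) u⁻¹ (-(b * v⁻¹)) v⁻¹)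
    (by
      have h1 : (C u : MvPolynomial (Fin 2) k) * C u⁻¹ = 1 := by
        rw [← C_mul, mul_inv_cancel₀ hu, C_1]
      have h2 : (C v : MvPolynomial (Fin 2) k) * C v⁻¹ = 1 := by
        rw [← C_mul, mul_inv_cancel₀ hv, C_1]
      apply MvPolynomial.algHom_ext
      intro i
      fin_cases i
      · simp only [aff, AlgHom.comp_apply, aeval_X, Fin.zero_eta, Matrix.cons_val_zero, map_add,
          map_mul, map_neg, AlgHom.coe_id, id_eq, algHom_C, algebraMap_eq]
        linear_combination (X 0) * h1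
      · simp only [aff, AlgHom.comp_apply, aeval_X, Fin.mk_one, Matrix.cons_val_one, map_add,
          map_mul, map_neg, AlgHom.coe_id, id_eq, algHom_C, algebraMap_eq, Matrix.cons_val_fin_one]
        linear_combination (X 1) * h2)
    (by
      have h1 : (C u : MvPolynomial (Fin 2) k) * C u⁻¹ = 1 := by
        rw [← C_mul, mul_inv_cancel₀ hu, C_1]
      have h2 : (C v : MvPolynomial (Fin 2) k) * C v⁻¹ = 1 := by
        rw [← C_mul, mul_inv_cancel₀ hv, C_1]
      apply MvPolynomial.algHom_ext
      intro i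
      fin_cases i
      · simp only [aff, AlgHom.comp_apply, aeval_X, Fin.zero_eta, Matrix.cons_val_zero, map_add,
          map_mul, map_neg, AlgHom.coe_id, id_eq, algHom_C, algebraMap_eq]
        linear_combination (X 0 - C a) * h1
      · simp only [aff, AlgHom.comp_apply, aeval_X, Fin.mk_one, Matrix.cons_val_one, map_add,
          map_mul, map_neg, AlgHom.coe_id, id_eq, algHom_C, algebraMap_eq, Matrix.cons_val_fin_one]
        linear_combination (X 1 - C b) * h2)

theorem affEquiv_apply {k : Type} [Field k] (a u b v : k) (hu : u ≠ 0) (hv : v ≠ 0)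
    (p : MvPolynomial (Fin 2) k) : affEquiv a u b v hu hv p = aff a u b v p := rfl

theorem map_aff {R S : Type} [CommRing R] [CommRing S] (f : R →+* S) (a u b v : R)
    (p : MvPolynomial (Fin 2) R) :
    map f (aff a u b v p) = aff (f a) (f u) (f b) (f v) (map f p) := by
  have : (map f).comp (aff a u b v : MvPolynomial (Fin 2) R →ₐ[R] _).toRingHom =
      (aff (f a) (f u) (f b) (f v) : MvPolynomial (Fin 2) S →ₐ[S] _).toRingHom.comp (map f) := by
    apply MvPolynomial.ringHom_ext
    · intro r
      simp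
    · intro i
      fin_cases i <;> simp [aff]
  exact congrArg (fun g => g p) this

theorem absIrreducible_aff {F : MvPolynomial (Fin 2) ℤ} (h : AbsIrreducible F) (a b u v : ℤ)
    (hu : u ≠ 0) (hv : v ≠ 0) : AbsIrreducible (aff a u b v F) := by
  unfold AbsIrreducible at *
  rw [map_aff, ← affEquiv_apply _ _ _ _ (by simpa using hu) (by simpa using hv)]
  exact (MulEquiv.irreducible_iff _).2 h

theorem hasGenus_aff {F : MvPolynomial (Fin 2) ℤ} {g : ℕ} (h : HasGenus F g) (a b u v : ℤ)
    (hu : u ≠ 0) (hv : v ≠ 0) : HasGenus (aff a u b v F) g := by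
  obtain ⟨K, _, _, x, y, hker, hadj, hg⟩ := h
  have hu' : (Int.castRingHom Qbar u) ≠ 0 := by simpa using hu
  have hv' : (Int.castRingHom Qbar v) ≠ 0 := by simpa using hv
  set a' := Int.castRingHom Qbar a with ha'
  set b' := Int.castRingHom Qbar b with hb'
  set u' := Int.castRingHom Qbar u with hu''
  set v' := Int.castRingHom Qbar v with hv''
  set x' : K := algebraMap Qbar K u'⁻¹ * (x - algebraMap Qbar K a') with hx'
  set y' : K := algebraMap Qbar K v'⁻¹ * (y - algebraMap Qbar K b') with hy'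
  have hx : x = algebraMap Qbar K a' + algebraMap Qbar K u' * x' := by
    rw [hx', ← mul_assoc, ← map_mul, mul_inv_cancel₀ hu']; simp
  have hy : y = algebraMap Qbar K b' + algebraMap Qbar K v' * y' := by
    rw [hy', ← mul_assoc, ← map_mul, mul_inv_cancel₀ hv']; simp
  have hcomp : (aeval ![x', y'] : MvPolynomial (Fin 2) Qbar →ₐ[Qbar] K).comp
      (aff a' u' b' v') = aeval ![x, y] := by
    apply MvPolynomial.algHom_ext
    intro i
    fin_cases i
    · simp only [aff, AlgHom.comp_apply, aeval_X, Fin.zero_eta, Matrix.cons_val_zero, map_add, map_mul,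
          algHom_C]
      exact hx.symm
    · simp only [aff, AlgHom.comp_apply, aeval_X, Fin.mk_one, Matrix.cons_val_one, map_add, map_mul,
          algHom_C, Matrix.cons_val_fin_one]
      exact hy.symm
  refine ⟨K, inferInstance, inferInstance, x', y', ?_, ?_, hg⟩
  · rw [map_aff]
    ext P
    rw [RingHom.mem_ker, Ideal.mem_span_singleton]
    obtain ⟨Q, rfl⟩ := (affEquiv a' u' b' v' hu' hv').surjective P
    have h1 : (aeval ![x', y'] : MvPolynomial (Fin 2) Qbar →ₐ[Qbar] K)
        (affEquiv a' u' b' v' hu' hv' Q) = aeval ![x, y] Q := by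
      rw [affEquiv_apply, ← hcomp]; rfl
    have h2 : aeval ![x, y] Q = 0 ↔ map (Int.castRingHom Qbar) F ∣ Q := by
      have := SetLike.ext_iff.1 hker Q
      rw [RingHom.mem_ker, Ideal.mem_span_singleton] at this
      exact this
    rw [← affEquiv_apply a' u' b' v' hu' hv']
    have h3 : affEquiv a' u' b' v' hu' hv' (map (Int.castRingHom Qbar) F) ∣
        affEquiv a' u' b' v' hu' hv' Q ↔ map (Int.castRingHom Qbar) F ∣ Q := map_dvd_iff _
    rw [h3, ← h2]
    exact Eq.congr_left h1
  · apply top_le_iff.1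
    rw [← hadj]
    apply IntermediateField.adjoin_le_iff.2
    have mx : x' ∈ IntermediateField.adjoin Qbar {x', y'} :=
      IntermediateField.subset_adjoin _ _ (by simp)
    have my : y' ∈ IntermediateField.adjoin Qbar {x', y'} :=
      IntermediateField.subset_adjoin _ _ (by simp)
    rintro z (rfl | rfl)
    · simp only [SetLike.mem_coe]
      rw [hx]
      exact add_mem (IntermediateField.algebraMap_mem _ _)
        (mul_mem (IntermediateField.algebraMap_mem _ _) mx)
    · simp only [SetLike.mem_coe]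
      rw [hy]
      exact add_mem (IntermediateField.algebraMap_mem _ _)
        (mul_mem (IntermediateField.algebraMap_mem _ _) my)

theorem eval_aff (F : MvPolynomial (Fin 2) ℤ) (a b u v s t : ℤ) :
    eval ![s, t] (aff a u b v F) = eval ![a + u * s, b + v * t] F := by
  have : (eval ![s, t]).comp (aff a u b v : MvPolynomial (Fin 2) ℤ →ₐ[ℤ] _).toRingHom =
      eval ![a + u * s, b + v * t] := by
    apply MvPolynomial.ringHom_ext
    · intro r
      simp
    · intro i
      fin_cases i <;> simp [aff]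
  exact congrArg (fun g => g F) this

theorem mem_intPoints_aff (F : MvPolynomial (Fin 2) ℤ) (a b u v s t : ℤ) :
    (s, t) ∈ intPoints (aff a u b v F) ↔ (a + u * s, b + v * t) ∈ intPoints F := by
  show eval ![s, t] (aff a u b v F) = 0 ↔ eval ![a + u * s, b + v * t] F = 0
  rw [eval_aff]

theorem finite_aff {F : MvPolynomial (Fin 2) ℤ} (h : (intPoints F).Finite) (a b u v : ℤ)
    (hu : u ≠ 0) (hv : v ≠ 0) : (intPoints (aff a u b v F)).Finite := by
  refine Set.Finite.of_finite_image (f := fun p : ℤ × ℤ => (a + u * p.1, b + v * p.2))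
    (h.subset ?_) ?_
  · rintro _ ⟨⟨s, t⟩, hst, rfl⟩
    exact (mem_intPoints_aff F a b u v s t).1 hst
  · rintro ⟨s, t⟩ _ ⟨s', t'⟩ _ heq
    simp only [Prod.mk.injEq, add_right_inj] at heq
    exact Prod.ext (mul_left_cancel₀ hu heq.1) (mul_left_cancel₀ hv heq.2)

theorem inClass_aff {S : Set ℕ} {F : MvPolynomial (Fin 2) ℤ} (h : InClass S F) (a b u v : ℤ)
    (hu : u ≠ 0) (hv : v ≠ 0) : InClass S (aff a u b v F) :=
  ⟨absIrreducible_aff h.1 a b u v hu hv,
    h.2.1.imp fun _ hg => ⟨hg.1, hg.2.1, hasGenus_aff hg.2.2 a b u v hu hv⟩,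
    finite_aff h.2.2 a b u v hu hv⟩

theorem divBy_add {M : ℕ} {F G : MvPolynomial (Fin 2) ℤ} (hF : DivBy M F) (hG : DivBy M G) :
    DivBy M (F + G) := fun m => by
  rw [coeff_add]; exact dvd_add (hF m) (hG m)

theorem divBy_mul {M : ℕ} {F G : MvPolynomial (Fin 2) ℤ} (hF : DivBy M F) (hG : DivBy M G) :
    DivBy M (F * G) := fun m => by
  rw [coeff_mul]
  refine Finset.dvd_sum fun p hp => ?_
  rw [Finset.HasAntidiagonal.mem_antidiagonal] at hp
  have : m 0 + m 1 = (p.1 0 + p.1 1) + (p.2 0 + p.2 1) := by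
    rw [← hp]; simp only [Finsupp.add_apply]; ring
  rw [this, pow_add]
  exact mul_dvd_mul (hF _) (hG _)

theorem divBy_C {M : ℕ} (a : ℤ) : DivBy M (C a) := fun m => by
  rw [coeff_C]
  split_ifs with h
  · subst h; simp
  · exact dvd_zero _

theorem divBy_X {M : ℕ} {u : ℤ} (hu : (M : ℤ) ∣ u) (i : Fin 2) : DivBy M (C u * X i) := fun m => by
  rw [coeff_C_mul, coeff_X]
  split_ifs with h
  · subst h
    fin_cases i <;> simpa using hu
  · simp

theorem divBy_aff {M : ℕ} (F : MvPolynomial (Fin 2) ℤ) (a b : ℤ) {u v : ℤ}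
    (hu : (M : ℤ) ∣ u) (hv : (M : ℤ) ∣ v) : DivBy M (aff a u b v F) := by
  induction F using MvPolynomial.induction_on with
  | C r =>
    have : aff a u b v (C r) = C r := by simp [aff]
    rw [this]
    exact divBy_C r
  | add p q hp hq => rw [map_add]; exact divBy_add hp hq
  | mul_X p i hp =>
    rw [map_mul]
    refine divBy_mul hp ?_
    fin_cases i
    · simpa [aff] using divBy_add (divBy_C a) (divBy_X hu 0)
    · simpa [aff] using divBy_add (divBy_C b) (divBy_X hv 1)

end Pool.Agent.H8.Siegel
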