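import Mathlib
import Pool.Agent.H8.SiegelDefs

namespace Pool.Agent.H8.Siegel

open MvPolynomial

/-- The curve `F = 0` has genus at least 2: its function field `K` over the algebraic numbers
(generated by two elements `x`, `y` whose ideal of polynomial relations is generated by `F`)
has a space of everywhere regular differentials of dimension at least 2. -/
def GenusAtLeastTwo (F : MvPolynomial (Fin 2) ℤ) : Prop :=
  ∃ (K : Type) (_ : Field K) (_ : Algebra Qbar K) (x y : K),
    RingHom.ker (aeval ![x, y] : MvPolynomial (Fin 2) Qbar →ₐ[Qbar] K) =
      Ideal.span {map (Int.castRingHom Qbar) F} ∧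
    IntermediateField.adjoin Qbar {x, y} = ⊤ ∧
    2 ≤ Module.rank Qbar (regularDifferentials Qbar K)

end Pool.Agent.H8.Siegel
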