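import Mathlib
import Pool.Agent.H8.SiegelDefs

/-! Regular differentials on hyperelliptic function fields, and a lower bound for the size of
integer points. -/

namespace Pool.Agent.H8.Siegel

open MvPolynomial

/-- the additive group of differentials regular at a valuation ring -/
noncomputable def regAt (k K : Type) [Field k] [Field K] [Algebra k K] (O : ValuationSubring K) :
    AddSubgroup (Ω[K⁄k]) :=
  AddSubgroup.closure {v | ∃ f ∈ O, ∃ g ∈ O, v = f • KaehlerDifferential.D k K g}

section

variable {k K : Type} [Field k] [Field K] [Algebra k K]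

theorem regAt_smul {O : ValuationSubring K} {a : K} (ha : a ∈ O) {w : Ω[K⁄k]}
    (hw : w ∈ regAt k K O) : a • w ∈ regAt k K O := by
  refine AddSubgroup.closure_induction (p := fun v _ => a • v ∈ regAt k K O) ?_ ?_ ?_ ?_ hw
  · rintro _ ⟨f, hf, g, hg, rfl⟩
    refine AddSubgroup.subset_closure ⟨a * f, O.mul_mem _ _ ha hf, g, hg, ?_⟩
    rw [smul_smul]
  · rw [smul_zero]; exact AddSubgroup.zero_mem _
  · intro u v _ _ hu hv
    rw [smul_add]; exact AddSubgroup.add_mem _ hu hv
  · intro u _ hu
    rw [smul_neg]; exact AddSubgroup.neg_mem _ hu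

theorem regAt_mem {O : ValuationSubring K} {a b : K} (ha : a ∈ O) (hb : b ∈ O) :
    a • KaehlerDifferential.D k K b ∈ regAt k K O :=
  AddSubgroup.subset_closure ⟨a, ha, b, hb, rfl⟩

theorem aeval_mem_val {O : ValuationSubring K} (hO : ∀ a : k, algebraMap k K a ∈ O) {t : K}
    (ht : t ∈ O) (p : Polynomial k) : Polynomial.aeval t p ∈ O := by
  induction p using Polynomial.induction_on' with
  | add p q hp hq => rw [map_add]; exact O.add_mem _ _ hp hq
  | monomial n a =>
    rw [Polynomial.aeval_monomial]
    exact O.mul_mem _ _ (hO a) (pow_mem ht n)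

theorem sq_mem_val {O : ValuationSubring K} {w : K} (h : w ^ 2 ∈ O) : w ∈ O := by
  rcases O.mem_or_inv_mem w with hw | hw
  · exact hw
  · by_cases h0 : w = 0
    · rw [h0]; exact O.zero_mem
    · have : w = w ^ 2 * w⁻¹ := by field_simp
      rw [this]
      exact O.mul_mem _ _ h hw

/-- if `w ^ 2 = h(t)` with `h` squarefree and `t` integral at `O` then `dt / w` is regular -/
theorem regular_of_sq {O : ValuationSubring K} (hO : ∀ a : k, algebraMap k K a ∈ O) {t w : K}
    (ht : t ∈ O) (hw : w ≠ 0) (h : Polynomial k) (hsq : w ^ 2 = Polynomial.aeval t h)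
    (hcop : IsCoprime h (Polynomial.derivative h)) :
    w⁻¹ • KaehlerDifferential.D k K t ∈ regAt k K O := by
  obtain ⟨a, b, hab⟩ := hcop
  have hwO : w ∈ O := sq_mem_val (by rw [hsq]; exact aeval_mem_val hO ht h)
  have h1 : Polynomial.aeval t a * w ^ 2 +
      Polynomial.aeval t b * Polynomial.aeval t (Polynomial.derivative h) = 1 := by
    have := congrArg (Polynomial.aeval t) hab
    simpa [hsq] using this
  have h2 : Polynomial.aeval t (Polynomial.derivative h) • KaehlerDifferential.D k K t =
      (2 * w) • KaehlerDifferential.D k K w := by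
    have e1 : KaehlerDifferential.D k K (Polynomial.aeval t h) =
        Polynomial.aeval t (Polynomial.derivative h) • KaehlerDifferential.D k K t :=
      Derivation.map_aeval _ _ _
    rw [← e1, ← hsq, pow_two, Derivation.leibniz, ← two_smul K, smul_smul]
  have h3 : w⁻¹ • KaehlerDifferential.D k K t =
      (Polynomial.aeval t a * w) • KaehlerDifferential.D k K t +
      (2 * Polynomial.aeval t b) • KaehlerDifferential.D k K w := by
    calc w⁻¹ • KaehlerDifferential.D k K t
        = (w⁻¹ * (Polynomial.aeval t a * w ^ 2 +
            Polynomial.aeval t b * Polynomial.aeval t (Polynomial.derivative h))) •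
            KaehlerDifferential.D k K t := by rw [h1, mul_one]
      _ = (Polynomial.aeval t a * w) • KaehlerDifferential.D k K t +
          (w⁻¹ * Polynomial.aeval t b) • (Polynomial.aeval t (Polynomial.derivative h) •
            KaehlerDifferential.D k K t) := by
          rw [smul_smul, ← add_smul]
          congr 1
          field_simp
      _ = _ := by
          rw [h2, smul_smul]
          congr 2
          field_simp
  rw [h3]
  exact AddSubgroup.add_mem _ (regAt_mem (O.mul_mem _ _ (aeval_mem_val hO ht a) hwO) ht)
    (regAt_mem (O.mul_mem _ _ (by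
      have : (2 : K) = algebraMap k K 2 := (map_ofNat (algebraMap k K) 2).symm
      rw [this]; exact hO 2) (aeval_mem_val hO ht b)) hwO)

/-- derivation constants form an intermediate field -/
theorem D_eq_zero_of_adjoin {x y : K} (hadj : IntermediateField.adjoin k {x, y} = ⊤)
    (hx : KaehlerDifferential.D k K x = 0) (hy : KaehlerDifferential.D k K y = 0) (a : K) :
    KaehlerDifferential.D k K a = 0 := by
  have ha : a ∈ IntermediateField.adjoin k ({x, y} : Set K) := by rw [hadj]; trivial
  refine IntermediateField.adjoin_induction k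
    (p := fun a _ => KaehlerDifferential.D k K a = 0) ?_ ?_ ?_ ?_ ?_ ha
  · rintro z (rfl | rfl)
    · exact hx
    · exact hy
  · intro c; exact Derivation.map_algebraMap _ c
  · intro u v _ _ hu hv; rw [map_add, hu, hv, add_zero]
  · intro u _ hu
    rw [Derivation.leibniz_inv, hu, smul_zero]
  · intro u v _ _ hu hv; rw [Derivation.leibniz, hu, hv, smul_zero, smul_zero, add_zero]

/-- In a function field over an algebraically closed field, generated by `x` and `y`, not both
`dx` and `dy` vanish unless `y` is constant. -/
theorem not_both_zero [IsAlgClosed k] [Algebra.EssFiniteType k K] {x y : K}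
    (hadj : IntermediateField.adjoin k {x, y} = ⊤) (hyk : y ∉ Set.range (algebraMap k K))
    (hx : KaehlerDifferential.D k K x = 0) (hy : KaehlerDifferential.D k K y = 0) : False := by
  have hz := D_eq_zero_of_adjoin hadj hx hy
  have hsub : Subsingleton (Ω[K⁄k]) := by
    rw [← Submodule.subsingleton_iff K, ← subsingleton_iff_bot_eq_top]
    rw [← KaehlerDifferential.span_range_derivation k K]
    symm
    rw [Submodule.span_eq_bot]
    rintro _ ⟨a, rfl⟩
    exact hz a
  have hunr : Algebra.FormallyUnramified k K := ⟨hsub⟩
  have hsep : Algebra.IsSeparable k K := (Algebra.FormallyUnramified.iff_isSeparable k K).1 hunr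
  have halg : IsAlgebraic k y := Algebra.IsAlgebraic.isAlgebraic y
  exact hyk ((IsAlgClosed.algebraMap_bijective_of_isIntegral (k := k) (K := K)).2 y)

end

end Pool.Agent.H8.Siegel
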