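import Mathlib
import Pool.Agent.H8.SiegelDefs2
import Pool.Agent.H8.SiegelLower

namespace Pool.Agent.H8.Siegel

open MvPolynomial

noncomputable def lowF {R : Type} [CommRing R] (N : ℕ) (H : R) : MvPolynomial (Fin 2) R :=
  X 0 ^ 2 + C H * X 0 * X 1 ^ N - X 1 ^ (N + 1) - C H * X 1

theorem lowF_irreducible {k : Type} [Field k] {N : ℕ} (hN : 2 ≤ N) (H : k) (hH : H ≠ 0) :
    Irreducible (lowF N H) := by
  let e := finSuccEquiv k 1
  let t : MvPolynomial (Fin 1) k := X 0
  have he : e (lowF N H) = Polynomial.X ^ 2 + Polynomial.C (C H * t ^ N) * Polynomial.X +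
      Polynomial.C (-(t ^ (N + 1) + C H * t)) := by
    have h0 : e (X 0) = Polynomial.X := finSuccEquiv_X_zero
    have h1 : e (X 1) = Polynomial.C t := finSuccEquiv_X_succ (j := 0)
    have h2 : e (C H) = Polynomial.C (C H) := by
      simp [e, finSuccEquiv_apply]
    simp only [lowF, map_sub, map_mul, map_add, map_pow, h0, h1, h2, map_neg]
    ring
  rw [← MulEquiv.irreducible_iff e.toMulEquiv]
  show Irreducible (e (lowF N H))
  rw [he]
  have hmon : (Polynomial.X ^ 2 + Polynomial.C (C H * t ^ N) * Polynomial.X +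
      Polynomial.C (-(t ^ (N + 1) + C H * t)) :
        Polynomial (MvPolynomial (Fin 1) k)).Monic := by
    monicity!
  have hdeg : (Polynomial.X ^ 2 + Polynomial.C (C H * t ^ N) * Polynomial.X +
      Polynomial.C (-(t ^ (N + 1) + C H * t)) :
        Polynomial (MvPolynomial (Fin 1) k)).natDegree = 2 := by
    compute_degree!
  rw [Polynomial.Monic.irreducible_iff_roots_eq_zero_of_degree_le_three hmon hdeg.ge
    (by rw [hdeg]; norm_num)]
  rw [Multiset.eq_zero_iff_forall_notMem]
  intro q hq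
  rw [Polynomial.mem_roots hmon.ne_zero, Polynomial.IsRoot.def] at hq
  simp only [Polynomial.eval_add, Polynomial.eval_mul, Polynomial.eval_pow, Polynomial.eval_X,
    Polynomial.eval_C] at hq
  have ht : Prime t := X_prime
  have htN : t ^ N = t * t ^ (N - 1) := by
    rw [← pow_succ']; congr 1; omega
  have hdvd : t ∣ q := by
    apply ht.dvd_of_dvd_pow (n := 2)
    refine ⟨t ^ N + C H - C H * t ^ (N - 1) * q, ?_⟩
    linear_combination hq - C H * q * htN
  obtain ⟨r, rfl⟩ := hdvd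
  have h2 : t * (t * (r ^ 2 + C H * t ^ (N - 1) * r - t ^ (N - 1)) - C H) = 0 := by
    linear_combination hq - (C H * t * r - t) * htN
  rcases mul_eq_zero.1 h2 with h3 | h3
  · exact ht.ne_zero h3
  · apply ht.not_dvd_one
    refine ⟨(r ^ 2 + C H * t ^ (N - 1) * r - t ^ (N - 1)) * C H⁻¹, ?_⟩
    have : (C H : MvPolynomial (Fin 1) k) * C H⁻¹ = 1 := by
      rw [← C_mul, mul_inv_cancel₀ hH, C_1]
    linear_combination (-C H⁻¹) * h3 - this

theorem cop_f {k : Type} [Field k] [IsAlgClosed k] [CharZero k] {N H : ℕ} (hN : 2 ≤ N)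
    (hH : 1 ≤ H) (a c d : k) (ha : a = (H : k) ^ 2) (hc : c = 4) (hd : d = 4 * H) :
    IsCoprime (Polynomial.C a * Polynomial.X ^ (2 * N) + Polynomial.C c * Polynomial.X ^ (N + 1) +
      Polynomial.C d * Polynomial.X : Polynomial k)
      (Polynomial.derivative (Polynomial.C a * Polynomial.X ^ (2 * N) +
        Polynomial.C c * Polynomial.X ^ (N + 1) + Polynomial.C d * Polynomial.X)) := by
  rw [Polynomial.isCoprime_iff_aeval_ne_zero_of_isAlgClosed k k]
  intro y
  by_contra hcon
  rw [not_or, not_not, not_not] at hcon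
  obtain ⟨h1, h2⟩ := hcon
  simp only [map_add, map_mul, Polynomial.aeval_X_pow, Polynomial.aeval_C, Polynomial.aeval_X,
    Polynomial.derivative_X_pow, Polynomial.derivative_C_mul,
    Polynomial.derivative_X, Algebra.algebraMap_self, RingHom.id_apply,
    mul_one] at h1 h2
  obtain ⟨M, rfl⟩ : ∃ M, N = M + 2 := ⟨N - 2, by omega⟩
  have e1 : 2 * (M + 2) - 1 = 2 * M + 3 := by omega
  have e2 : M + 2 + 1 - 1 = M + 2 := by omega
  rw [e1, e2] at h2
  have hH0 : (H : k) ≠ 0 := by exact_mod_cast (by omega : H ≠ 0)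
  set A := y ^ (M + 2) with hA
  have hA2 : y ^ (2 * (M + 2)) = A ^ 2 := by rw [hA, ← pow_mul, mul_comm]
  have hA1 : y ^ (M + 2 + 1) = y * A := by rw [hA, ← pow_succ']
  have hyA : y * y ^ (2 * M + 3) = A ^ 2 := by rw [hA, ← pow_mul, ← pow_succ']; congr 1; ring
  rw [hA2, hA1] at h1
  have hy0 : y ≠ 0 := by
    rintro rfl
    simp [hA, hd, hH0] at h2
  have hA0 : A ≠ 0 := pow_ne_zero _ hy0
  have h3 : y * (a * (((2 * (M + 2) : ℕ) : k) * y ^ (2 * M + 3)) +
      c * (((M + 2 + 1 : ℕ) : k) * A) + d) = 0 := by rw [h2, mul_zero]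
  have h4 : (2 * (M : k) + 4) * a * A ^ 2 + c * ((M : k) + 3) * (y * A) + d * y = 0 := by
    push_cast at h3
    linear_combination h3 - ((2 * (M : k) + 4) * a) * hyA
  have h5 : A * ((2 * (M : k) + 3) * a * A + c * ((M : k) + 2) * y) = 0 := by
    linear_combination h4 - h1
  have h6 : (2 * (M : k) + 3) * a * A + c * ((M : k) + 2) * y = 0 :=
    (mul_eq_zero.1 h5).resolve_left hA0
  have hM1 : ((M : k) + 1) ≠ 0 := by
    have : ((M + 1 : ℕ) : k) ≠ 0 := by exact_mod_cast (by omega : M + 1 ≠ 0)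
    push_cast at this; exact this
  have hM2 : ((M : k) + 2) ≠ 0 := by
    have : ((M + 2 : ℕ) : k) ≠ 0 := by exact_mod_cast (by omega : M + 2 ≠ 0)
    push_cast at this; exact this
  have h7 : (H : k) ^ 2 * A * (((M : k) + 1) * A + (2 * (M : k) + 3) * H) = 0 := by
    rw [ha, hc] at h6
    rw [ha, hc, hd] at h1
    linear_combination (A + H) * h6 - ((M : k) + 2) * h1
  have h8 : ((M : k) + 1) * A + (2 * (M : k) + 3) * H = 0 := by
    rcases mul_eq_zero.1 h7 with h | h
    · exact absurd h (mul_ne_zero (pow_ne_zero _ hH0) hA0)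
    · exact h
  -- rational values
  have hAq : A = ((-(H * (2 * M + 3) / (M + 1)) : ℚ) : k) := by
    push_cast
    rw [← neg_div, eq_div_iff hM1]
    linear_combination h8
  have hyq : y = ((H ^ 3 * (2 * M + 3) ^ 2 / (4 * ((M + 1) * (M + 2))) : ℚ) : k) := by
    push_cast
    rw [eq_div_iff (mul_ne_zero (by norm_num) (mul_ne_zero hM1 hM2))]
    rw [ha, hc] at h6
    linear_combination ((M : k) + 1) * h6 - (2 * (M : k) + 3) * (H : k) ^ 2 * h8
  have h9 : ((H ^ 3 * (2 * M + 3) ^ 2 / (4 * ((M + 1) * (M + 2))) : ℚ) : k) ^ (M + 2) =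
      ((-(H * (2 * M + 3) / (M + 1)) : ℚ) : k) := by
    rw [← hyq, ← hAq]
  have h10 : (H ^ 3 * (2 * M + 3) ^ 2 / (4 * ((M + 1) * (M + 2))) : ℚ) ^ (M + 2) =
      (-(H * (2 * M + 3) / (M + 1)) : ℚ) := by exact_mod_cast h9
  have h11 : (0 : ℚ) < H * (2 * M + 3) / (M + 1) := by
    have : (0 : ℚ) < H := by exact_mod_cast hH
    positivity
  have h12 : (0 : ℚ) ≤ (H ^ 3 * (2 * M + 3) ^ 2 / (4 * ((M + 1) * (M + 2))) : ℚ) ^ (M + 2) := by
    positivity
  linarith

theorem cop_fstar {k : Type} [Field k] [IsAlgClosed k] [CharZero k] {N H : ℕ} (hN : 2 ≤ N)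
    (hH : 1 ≤ H) (a c d : k) (ha : a = (H : k) ^ 2) (hc : c = 4) (hd : d = 4 * H) :
    IsCoprime (Polynomial.C a + Polynomial.C c * Polynomial.X ^ (N - 1) +
      Polynomial.C d * Polynomial.X ^ (2 * N - 1) : Polynomial k)
      (Polynomial.derivative (Polynomial.C a + Polynomial.C c * Polynomial.X ^ (N - 1) +
      Polynomial.C d * Polynomial.X ^ (2 * N - 1))) := by
  rw [Polynomial.isCoprime_iff_aeval_ne_zero_of_isAlgClosed k k]
  intro y
  by_contra hcon
  rw [not_or, not_not, not_not] at hcon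
  obtain ⟨h1, h2⟩ := hcon
  simp only [map_add, map_mul, Polynomial.aeval_X_pow, Polynomial.aeval_C,
    Polynomial.derivative_X_pow, Polynomial.derivative_C_mul, Polynomial.derivative_C,
    zero_add, Algebra.algebraMap_self, RingHom.id_apply] at h1 h2
  obtain ⟨M, rfl⟩ : ∃ M, N = M + 2 := ⟨N - 2, by omega⟩
  have e1 : 2 * (M + 2) - 1 = 2 * M + 3 := by omega
  have e2 : M + 2 - 1 = M + 1 := by omega
  have e3 : 2 * M + 3 - 1 = 2 * M + 2 := by omega
  have e4 : M + 1 - 1 = M := by omega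
  rw [e1, e2] at h1
  rw [e1, e2, e3, e4] at h2
  have hH0 : (H : k) ≠ 0 := by exact_mod_cast (by omega : H ≠ 0)
  set E := y ^ (M + 1) with hE
  have hE2 : y ^ (2 * M + 3) = y * E ^ 2 := by rw [hE, ← pow_mul, ← pow_succ']; congr 1; ring
  rw [hE2] at h1
  have hy0 : y ≠ 0 := by
    rintro rfl
    rw [hE] at h1
    simp [ha, hH0] at h1
  have hE0 : E ≠ 0 := pow_ne_zero _ hy0
  have h3 : y * (c * (((M + 1 : ℕ) : k) * y ^ M) +
      d * (((2 * M + 3 : ℕ) : k) * y ^ (2 * M + 2))) = 0 := by rw [h2, mul_zero]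
  have g1 : y * y ^ M = E := by rw [hE, ← pow_succ']
  have g2 : y ^ (2 * M + 2) = E ^ 2 := by rw [hE, ← pow_mul]; congr 1; ring
  have h4 : c * ((M : k) + 1) * E + d * (2 * (M : k) + 3) * (y * E ^ 2) = 0 := by
    push_cast at h3
    rw [g2] at h3
    linear_combination h3 - c * ((M : k) + 1) * g1
  have hM3 : (2 * (M : k) + 3) ≠ 0 := by
    have : ((2 * M + 3 : ℕ) : k) ≠ 0 := by exact_mod_cast (by omega : 2 * M + 3 ≠ 0)
    push_cast at this; exact this
  have hM2 : ((M : k) + 2) ≠ 0 := by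
    have : ((M + 2 : ℕ) : k) ≠ 0 := by exact_mod_cast (by omega : M + 2 ≠ 0)
    push_cast at this; exact this
  have h5 : E * (c * ((M : k) + 1) + d * (2 * (M : k) + 3) * (y * E)) = 0 := by
    linear_combination h4
  have h6 : c * ((M : k) + 1) + d * (2 * (M : k) + 3) * (y * E) = 0 :=
    (mul_eq_zero.1 h5).resolve_left hE0
  rw [hc, hd] at h6
  rw [ha, hc, hd] at h1
  -- (2M+3) H^2 + 4 (M+2) E = 0
  have h7 : (2 * (M : k) + 3) * (H : k) ^ 2 + 4 * ((M : k) + 2) * E = 0 := by
    linear_combination (2 * (M : k) + 3) * h1 - E * h6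
  have hEq : E = ((-((2 * M + 3) * H ^ 2 / (4 * (M + 2))) : ℚ) : k) := by
    push_cast
    rw [← neg_div, eq_div_iff (mul_ne_zero (by norm_num) hM2)]
    linear_combination h7
  have hyq : y = ((4 * ((M + 1) * (M + 2)) / (H ^ 3 * (2 * M + 3) ^ 2) : ℚ) : k) := by
    push_cast
    rw [eq_div_iff (mul_ne_zero (pow_ne_zero _ hH0) (pow_ne_zero _ hM3))]
    have h4' : (4 : k) ≠ 0 := by norm_num
    linear_combination (H : k) * (2 * (M : k) + 3) * y * h7 - ((M : k) + 2) * h6
  have h9 : ((4 * ((M + 1) * (M + 2)) / (H ^ 3 * (2 * M + 3) ^ 2) : ℚ) : k) ^ (M + 1) =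
      ((-((2 * M + 3) * H ^ 2 / (4 * (M + 2))) : ℚ) : k) := by
    rw [← hyq, ← hEq]
  have h10 : (4 * ((M + 1) * (M + 2)) / (H ^ 3 * (2 * M + 3) ^ 2) : ℚ) ^ (M + 1) =
      (-((2 * M + 3) * H ^ 2 / (4 * (M + 2))) : ℚ) := by exact_mod_cast h9
  have h11 : (0 : ℚ) < (2 * M + 3) * H ^ 2 / (4 * (M + 2)) := by
    have : (0 : ℚ) < H := by exact_mod_cast hH
    positivity
  have h12 : (0 : ℚ) ≤ (4 * ((M + 1) * (M + 2)) / (H ^ 3 * (2 * M + 3) ^ 2) : ℚ) ^ (M + 1) := by
    positivity
  linarith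

theorem exists_function_field {k : Type} [Field k] (P : MvPolynomial (Fin 2) k)
    (hirr : Irreducible P) :
    ∃ (K : Type) (_ : Field K) (_ : Algebra k K) (_ : Algebra.EssFiniteType k K) (x y : K),
      RingHom.ker (aeval ![x, y] : MvPolynomial (Fin 2) k →ₐ[k] K) = Ideal.span {P} ∧
      IntermediateField.adjoin k {x, y} = ⊤ := by
  have hprime : Prime P := hirr.prime
  let I : Ideal (MvPolynomial (Fin 2) k) := Ideal.span {P}
  have : I.IsPrime := (Ideal.span_singleton_prime hirr.ne_zero).2 hprime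
  let R := MvPolynomial (Fin 2) k ⧸ I
  have : IsDomain R := Ideal.Quotient.isDomain I
  let K := FractionRing R
  let ι : MvPolynomial (Fin 2) k →ₐ[k] K :=
    (IsScalarTower.toAlgHom k R K).comp (Ideal.Quotient.mkₐ k I)
  let x : K := ι (X 0)
  let y : K := ι (X 1)
  have hι : (aeval ![x, y] : MvPolynomial (Fin 2) k →ₐ[k] K) = ι := by
    apply MvPolynomial.algHom_ext
    intro i
    fin_cases i <;> simp [x, y]
  have hιker : ∀ p, ι p = 0 ↔ p ∈ I := by
    intro p
    have : ι p = algebraMap R K (Ideal.Quotient.mk I p) := rfl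
    rw [this, map_eq_zero_iff _ (IsFractionRing.injective R K), Ideal.Quotient.eq_zero_iff_mem]
  have hmemadj : ∀ p, ι p ∈ IntermediateField.adjoin k ({x, y} : Set K) := by
    intro p
    induction p using MvPolynomial.induction_on with
    | C a =>
      rw [algHom_C]
      exact IntermediateField.algebraMap_mem _ _
    | add p q hp hq => rw [map_add]; exact add_mem hp hq
    | mul_X p i hp =>
      rw [map_mul]
      refine mul_mem hp (IntermediateField.subset_adjoin _ _ ?_)
      fin_cases i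
      · exact Or.inl rfl
      · exact Or.inr rfl
  refine ⟨K, inferInstance, inferInstance,
    inferInstanceAs (Algebra.EssFiniteType k (FractionRing R)), x, y, ?_, ?_⟩
  · ext p
    rw [RingHom.mem_ker, hι]
    exact hιker p
  · rw [eq_top_iff]
    intro z _
    obtain ⟨a, b, hb, rfl⟩ := IsFractionRing.div_surjective (A := R) z
    obtain ⟨p, rfl⟩ := Ideal.Quotient.mk_surjective a
    obtain ⟨q, rfl⟩ := Ideal.Quotient.mk_surjective b
    exact div_mem (hmemadj p) (hmemadj q)

theorem rank_regular {k K : Type} [Field k] [IsAlgClosed k] [CharZero k] [Field K] [Algebra k K]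
    [Algebra.EssFiniteType k K] {N H : ℕ} (hN : 3 ≤ N) (hH : 1 ≤ H) {x y : K}
    (hadj : IntermediateField.adjoin k {x, y} = ⊤)
    (hrel : x ^ 2 + H * x * y ^ N - y ^ (N + 1) - H * y = 0)
    (hyk : y ∉ Set.range (algebraMap k K)) (hz0 : 2 * x + H * y ^ N ≠ 0) :
    2 ≤ Module.rank k (regularDifferentials k K) := by
  have : CharZero K := charZero_of_injective_algebraMap (algebraMap k K).injective
  have hy0 : y ≠ 0 := fun h => hyk ⟨0, by rw [map_zero, h]⟩
  set z : K := 2 * x + H * y ^ N with hz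
  set D := KaehlerDifferential.D k K with hD
  have hDH : D (H : K) = 0 := by
    have : ((H : ℕ) : K) = algebraMap k K (H : k) := by rw [map_natCast]
    rw [this]; exact Derivation.map_algebraMap _ _
  have hDrel : z • D x = ((N + 1 : ℕ) * y ^ N + H - H * x * (N * y ^ (N - 1))) • D y := by
    have h1 : D (x ^ 2 + H * x * y ^ N - y ^ (N + 1) - H * y) = 0 := by
      rw [hrel, map_zero]
    rw [map_sub, map_sub, map_add, Derivation.leibniz, Derivation.leibniz_pow,
      Derivation.leibniz_pow, Derivation.leibniz, Derivation.leibniz, Derivation.leibniz_pow,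
      hDH, smul_zero, smul_zero, add_zero, add_zero] at h1
    have h2 : z • D x - ((N + 1 : ℕ) * y ^ N + H - H * x * (N * y ^ (N - 1))) • D y =
        0 := by
      rw [← h1, hz]
      simp only [← Nat.cast_smul_eq_nsmul K, Nat.cast_ofNat, show 2 - 1 = 1 from rfl, pow_one,
        Nat.add_sub_cancel]
      module
    exact sub_eq_zero.1 h2
  have hDy : D y ≠ 0 := by
    intro h
    rw [h, smul_zero] at hDrel
    rcases smul_eq_zero.1 hDrel with h' | h'
    · exact hz0 h'
    · exact not_both_zero hadj hyk h' h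
  -- the two differentials
  have hsq : z ^ 2 = (H : K) ^ 2 * y ^ (2 * N) + 4 * y ^ (N + 1) + 4 * (H : K) * y := by
    have : y ^ (2 * N) = y ^ N * y ^ N := by rw [two_mul, pow_add]
    rw [this, hz]
    linear_combination 4 * hrel
  have hmem : z⁻¹ • D y ∈ regularDifferentials k K ∧
      (y * z⁻¹) • D y ∈ regularDifferentials k K := by
    suffices h : ∀ O : ValuationSubring K, (∀ a : k, algebraMap k K a ∈ O) →
        z⁻¹ • D y ∈ regAt k K O ∧ (y * z⁻¹) • D y ∈ regAt k K O from
      ⟨fun O hO => (h O hO).1, fun O hO => (h O hO).2⟩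
    intro O hO
    by_cases hyO : y ∈ O
    · have h1 : z⁻¹ • D y ∈ regAt k K O := by
        refine regular_of_sq hO hyO hz0 _ ?_ (cop_f (k := k) (N := N) (H := H) (by omega) hH
          ((H : k) ^ 2) 4 (4 * (H : k)) rfl rfl rfl)
        rw [hsq]
        simp only [map_add, map_mul, Polynomial.aeval_C, Polynomial.aeval_X_pow,
          Polynomial.aeval_X, map_natCast, map_ofNat, map_pow]
      refine ⟨h1, ?_⟩
      rw [mul_smul]
      exact regAt_smul hyO h1
    · have htO : y⁻¹ ∈ O := (O.mem_or_inv_mem y).resolve_left hyO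
      set t := y⁻¹ with ht
      have hyt : y * t = 1 := mul_inv_cancel₀ hy0
      have hw0 : z * t ^ N ≠ 0 := mul_ne_zero hz0 (pow_ne_zero _ (inv_ne_zero hy0))
      have h1 : (z * t ^ N)⁻¹ • D t ∈ regAt k K O := by
        refine regular_of_sq hO htO hw0 _ ?_ (cop_fstar (k := k) (N := N) (H := H) (by omega) hH
          ((H : k) ^ 2) 4 (4 * (H : k)) rfl rfl rfl)
        have e1 : (z * t ^ N) ^ 2 = z ^ 2 * t ^ (2 * N) := by rw [mul_pow, ← pow_mul, mul_comm N 2]
        rw [e1, hsq]
        have e2 : y ^ (2 * N) * t ^ (2 * N) = 1 := by rw [← mul_pow, hyt, one_pow]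
        have e3 : y ^ (N + 1) * t ^ (2 * N) = t ^ (N - 1) := by
          have : 2 * N = (N + 1) + (N - 1) := by omega
          rw [this, pow_add t, ← mul_assoc, ← mul_pow, hyt, one_pow, one_mul]
        have e4 : y * t ^ (2 * N) = t ^ (2 * N - 1) := by
          obtain ⟨m, hm⟩ : ∃ m, 2 * N = m + 1 := ⟨2 * N - 1, by omega⟩
          rw [hm, Nat.add_sub_cancel, pow_succ', ← mul_assoc, hyt, one_mul]
        simp only [map_add, map_mul, Polynomial.aeval_X, map_pow,
          map_natCast, map_ofNat]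
        linear_combination (H : K) ^ 2 * e2 + 4 * e3 + 4 * (H : K) * e4
      have h2 : (z * t ^ N)⁻¹ • D t = (-(z⁻¹ * y ^ (N - 2))) • D y := by
        rw [ht, Derivation.leibniz_inv, smul_smul]
        congr 1
        obtain ⟨m, rfl⟩ : ∃ m, N = m + 2 := ⟨N - 2, by omega⟩
        rw [Nat.add_sub_cancel]
        have e6 : (z * t ^ (m + 2))⁻¹ = z⁻¹ * y ^ (m + 2) := by
          rw [mul_inv, ht, inv_pow, inv_inv]
        have e7 : y ^ 2 * t ^ 2 = 1 := by rw [← mul_pow, hyt, one_pow]
        rw [e6]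
        linear_combination (-(z⁻¹ * y ^ m)) * e7
      have h3 : z⁻¹ • D y = (-(t ^ (N - 2))) • ((z * t ^ N)⁻¹ • D t) := by
        rw [h2, smul_smul]
        congr 1
        have : t ^ (N - 2) * y ^ (N - 2) = 1 := by rw [← mul_pow, mul_comm t y, hyt, one_pow]
        linear_combination (-z⁻¹) * this
      have h4 : (y * z⁻¹) • D y = (-(t ^ (N - 3))) • ((z * t ^ N)⁻¹ • D t) := by
        rw [h2, smul_smul]
        congr 1
        have e5 : N - 2 = (N - 3) + 1 := by omega
        have : t ^ (N - 3) * y ^ (N - 2) = y := by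
          rw [e5, pow_succ, ← mul_assoc, ← mul_pow, mul_comm t y, hyt, one_pow, one_mul]
        linear_combination (-z⁻¹) * this
      rw [h3, h4]
      exact ⟨regAt_smul (O.neg_mem _ (pow_mem htO _)) h1,
        regAt_smul (O.neg_mem _ (pow_mem htO _)) h1⟩
  -- linear independence
  let v : Fin 2 → regularDifferentials k K := ![⟨_, hmem.1⟩, ⟨_, hmem.2⟩]
  have hv : LinearIndependent k v := by
    rw [LinearIndependent.pair_iff]
    intro a b hab
    have h1 : a • (z⁻¹ • D y) + b • ((y * z⁻¹) • D y) = 0 := congrArg Subtype.val hab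
    have h2 : ((algebraMap k K a + algebraMap k K b * y) * z⁻¹) • D y = 0 := by
      rw [← h1, add_mul, add_smul, mul_smul, mul_assoc, mul_smul, algebraMap_smul, algebraMap_smul]
    have h3 : algebraMap k K a + algebraMap k K b * y = 0 := by
      rcases smul_eq_zero.1 h2 with h | h
      · rcases mul_eq_zero.1 h with h | h
        · exact h
        · exact absurd h (inv_ne_zero hz0)
      · exact absurd h hDy
    have hb : b = 0 := by
      by_contra hb
      apply hyk
      refine ⟨-a / b, ?_⟩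
      have : algebraMap k K b ≠ 0 := by simpa using hb
      rw [map_div₀, map_neg, div_eq_iff this]
      linear_combination -h3
    refine ⟨?_, hb⟩
    rw [hb, map_zero, zero_mul, add_zero] at h3
    simpa using h3
  have := hv.cardinal_le_rank
  simpa using this

theorem lowF_genus {N H : ℕ} (hN : 3 ≤ N) (hH : 1 ≤ H) :
    GenusAtLeastTwo (lowF N (H : ℤ)) := by
  have hmap : map (Int.castRingHom Qbar) (lowF N (H : ℤ)) = lowF N (H : Qbar) := by
    simp [lowF]
  set P : MvPolynomial (Fin 2) Qbar := lowF N (H : Qbar) with hP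
  have hH0 : (H : Qbar) ≠ 0 := by exact_mod_cast (by omega : H ≠ 0)
  have hirr : Irreducible P := lowF_irreducible (by omega) _ hH0
  obtain ⟨K, i1, i2, i3, x, y, hker, hadj⟩ := exists_function_field P hirr
  refine ⟨K, i1, i2, x, y, by rw [hmap]; exact hker, hadj, ?_⟩
  have hev : ∀ (p : MvPolynomial (Fin 2) Qbar) (a b : Qbar), eval ![a, b] P = 0 →
      aeval ![x, y] p = 0 → eval ![a, b] p = 0 := by
    intro p a b hab hp
    have : p ∈ Ideal.span {P} := by rw [← hker]; exact hp
    obtain ⟨q, hq⟩ := Ideal.mem_span_singleton.1 this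
    rw [hq, map_mul, hab, zero_mul]
  have hpt : eval ![(H : Qbar) ^ 2, (H : Qbar) ^ 3] P = 0 := by
    simp only [hP, lowF, map_sub, map_mul, map_pow, map_add, eval_X, eval_C,
      Matrix.cons_val_zero, Matrix.cons_val_one, Matrix.cons_val_fin_one]
    ring
  refine rank_regular hN hH hadj ?_ ?_ ?_
  · have h0 : aeval ![x, y] P = 0 := by
      have : P ∈ RingHom.ker (aeval ![x, y] : MvPolynomial (Fin 2) Qbar →ₐ[Qbar] K) := by
        rw [hker]; exact Ideal.mem_span_singleton_self P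
      exact this
    simpa [hP, lowF] using h0
  · rintro ⟨c, hc⟩
    have h0 : aeval ![x, y] (X 1 - C c : MvPolynomial (Fin 2) Qbar) = 0 := by
      rw [map_sub, aeval_X, algHom_C, hc]; simp
    have h1 := hev _ 0 0 (by simp [hP, lowF, show N ≠ 0 by omega]) h0
    have h2 := hev _ _ _ hpt h0
    simp only [map_sub, eval_X, eval_C, Matrix.cons_val_one,
      Matrix.cons_val_fin_one] at h1 h2
    have : (H : Qbar) ^ 3 = 0 := by linear_combination h2 - h1
    exact hH0 (pow_eq_zero_iff (three_ne_zero) |>.1 this)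
  · intro h
    have h0 : aeval ![x, y] (2 * X 0 + C (H : Qbar) * X 1 ^ N :
        MvPolynomial (Fin 2) Qbar) = 0 := by
      simpa using h
    have h2 := hev _ _ _ hpt h0
    simp only [map_add, map_mul, map_pow, eval_X, eval_C, Matrix.cons_val_one,
      Matrix.cons_val_zero, Matrix.cons_val_fin_one, map_ofNat] at h2
    have h4 : 2 * H ^ 2 + H * (H ^ 3) ^ N = 0 := by exact_mod_cast h2
    have h5 : 0 < H ^ 2 := by positivity
    omega

theorem lowF_monomials (N : ℕ) (H : ℤ) : lowF N H = monomial (Finsupp.single 0 2) 1 +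
    monomial (Finsupp.single 0 1 + Finsupp.single 1 N) H - monomial (Finsupp.single 1 (N + 1)) 1 -
    monomial (Finsupp.single 1 1) H := by
  have h1 : (monomial (Finsupp.single 0 1 + Finsupp.single 1 N) H :
      MvPolynomial (Fin 2) ℤ) = C H * X 0 * X 1 ^ N := by
    rw [X_pow_eq_monomial, X, mul_assoc, monomial_mul, C_mul_monomial, mul_one, mul_one]
  have h2 : (monomial (Finsupp.single 1 1) H : MvPolynomial (Fin 2) ℤ) = C H * X 1 := by
    rw [X, C_mul_monomial, mul_one]
  rw [h1, h2, ← X_pow_eq_monomial, ← X_pow_eq_monomial]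
  simp only [lowF]

theorem coeff_lowF (N : ℕ) (H : ℤ) (m : Fin 2 →₀ ℕ) : coeff m (lowF N H) =
    (if m 0 = 2 ∧ m 1 = 0 then 1 else 0) + (if m 0 = 1 ∧ m 1 = N then H else 0) -
    (if m 0 = 0 ∧ m 1 = N + 1 then 1 else 0) - (if m 0 = 0 ∧ m 1 = 1 then H else 0) := by
  have key : ∀ (a b : ℕ), (Finsupp.single (0 : Fin 2) a + Finsupp.single 1 b = m) ↔
      (m 0 = a ∧ m 1 = b) := by
    intro a b
    constructor
    · rintro rfl; simp
    · rintro ⟨rfl, rfl⟩
      ext i
      fin_cases i <;> simp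
  have k1 := key 2 0
  have k2 := key 1 N
  have k3 := key 0 (N + 1)
  have k4 := key 0 1
  simp only [Finsupp.single_zero, add_zero, zero_add] at k1 k2 k3 k4
  rw [lowF_monomials, coeff_sub, coeff_sub, coeff_add, coeff_monomial, coeff_monomial,
    coeff_monomial, coeff_monomial]
  simp only [k1, k2, k3, k4]

theorem abs_coeff_lowF {N H : ℕ} (hN : 3 ≤ N) (hH : 1 ≤ H) (m : Fin 2 →₀ ℕ) :
    |coeff m (lowF N (H : ℤ))| ≤ H := by
  rw [coeff_lowF]
  have hH' : (1 : ℤ) ≤ H := by exact_mod_cast hH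
  split_ifs <;> first | omega | (rw [abs_le]; constructor <;> omega)

theorem totalDegree_lowF {N H : ℕ} (hN : 3 ≤ N) :
    (lowF N (H : ℤ)).totalDegree = N + 1 := by
  apply le_antisymm
  · apply Finset.sup_le
    intro m hm
    rw [mem_support_iff, coeff_lowF] at hm
    have hsum : (m.sum fun _ e => e) = m 0 + m 1 := by
      rw [Finsupp.sum_fintype _ _ (fun _ => rfl), Fin.sum_univ_two]
    rw [hsum]
    by_contra hlt
    apply hm
    rw [if_neg (by omega), if_neg (by omega), if_neg (by omega), if_neg (by omega)]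
    norm_num
  · have hm : Finsupp.single 1 (N + 1) ∈ (lowF N (H : ℤ)).support := by
      rw [mem_support_iff, coeff_lowF]
      simp
      omega
    have := le_totalDegree hm
    refine le_trans (le_of_eq ?_) this
    rw [Finsupp.sum_fintype _ _ (fun _ => rfl), Fin.sum_univ_two]
    simp

theorem lower_bound (n H : ℕ) (hn : 4 ≤ n) (hH : 1 ≤ H) :
    ∃ F : MvPolynomial (Fin 2) ℤ, AbsIrreducible F ∧ GenusAtLeastTwo F ∧ F.totalDegree = n ∧
      (∀ m, |coeff m F| ≤ H) ∧
      (-(H : ℤ) ^ (3 * n - 2) - (H : ℤ) ^ 2, (H : ℤ) ^ 3) ∈ intPoints F := by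
  obtain ⟨N, rfl⟩ : ∃ N, n = N + 1 := ⟨n - 1, by omega⟩
  have hN : 3 ≤ N := by omega
  refine ⟨lowF N (H : ℤ), ?_, lowF_genus hN hH, totalDegree_lowF hN,
    abs_coeff_lowF hN hH, ?_⟩
  · have hmap : map (Int.castRingHom Qbar) (lowF N (H : ℤ)) = lowF N (H : Qbar) := by
      simp [lowF]
    rw [AbsIrreducible, hmap]
    exact lowF_irreducible (by omega) _ (by exact_mod_cast (by omega : H ≠ 0))
  · show eval ![-(H : ℤ) ^ (3 * (N + 1) - 2) - (H : ℤ) ^ 2, (H : ℤ) ^ 3] (lowF N (H : ℤ)) = 0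
    have h1 : 3 * (N + 1) - 2 = 3 * N + 1 := by omega
    rw [h1]
    simp only [lowF, map_sub, map_mul, map_pow, map_add, eval_X, eval_C, Matrix.cons_val_zero,
      Matrix.cons_val_one, Matrix.cons_val_fin_one]
    rw [← pow_mul, ← pow_mul]
    ring

end Pool.Agent.H8.Siegel
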