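import Mathlib
import Pool.Agent.H8.SiegelAff
import Pool.Agent.H8.SiegelComp

namespace Pool.Agent.H8.Siegel

open MvPolynomial

/-! Substitutions on codes. -/

def sg (σ : Bool) : ℤ := if σ then 1 else -1

theorem sg_ne (σ : Bool) : sg σ ≠ 0 := by cases σ <;> simp [sg]

theorem sg_sq (σ : Bool) : sg σ * sg σ = 1 := by cases σ <;> simp [sg]

def linX (σ : Bool) (M r : ℕ) : Code :=
  if σ then [(r, 0, 0, 0), (M, 0, 1, 0)] else [(0, r, 0, 0), (0, M, 1, 0)]

def linY (σ : Bool) (M r : ℕ) : Code :=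
  if σ then [(r, 0, 0, 0), (M, 0, 0, 1)] else [(0, r, 0, 0), (0, M, 0, 1)]

theorem toPoly_linX (σ : Bool) (M r : ℕ) :
    toPoly (linX σ M r) = C (sg σ * r) + C (sg σ * M) * X 0 := by
  cases σ <;> simp [linX, sg, term]

theorem toPoly_linY (σ : Bool) (M r : ℕ) :
    toPoly (linY σ M r) = C (sg σ * r) + C (sg σ * M) * X 1 := by
  cases σ <;> simp [linY, sg, term]

def tr (σ τ : Bool) (M : ℕ) (c : Code) (r s : ℕ) : Code := compC c (linX σ M r) (linY τ M s)

theorem toPoly_tr (σ τ : Bool) (M : ℕ) (c : Code) (r s : ℕ) :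
    toPoly (tr σ τ M c r s) = aff (sg σ * r) (sg σ * M) (sg τ * s) (sg τ * M) (toPoly c) := by
  rw [tr, toPoly_compC, toPoly_linX, toPoly_linY, aff]

def boxCode (c : Code) (B : ℕ) : Code :=
  compC c [(0, B, 0, 0), (1, 0, 1, 0)] [(0, B, 0, 0), (1, 0, 0, 1)]

theorem toPoly_boxCode (c : Code) (B : ℕ) :
    toPoly (boxCode c B) = aff (-(B : ℤ)) 1 (-(B : ℤ)) 1 (toPoly c) := by
  have h0 : toPoly [(0, B, 0, 0), (1, 0, 1, 0)] = C (-(B : ℤ)) + C 1 * X 0 := by
    simp [term]
  have h1 : toPoly [(0, B, 0, 0), (1, 0, 0, 1)] = C (-(B : ℤ)) + C 1 * X 1 := by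
    simp [term]
  rw [boxCode, toPoly_compC, h0, h1, aff]

def cnt (c : Code) (B : ℕ) : ℕ := (solList (boxCode c B) (2 * B + 1)).length

/-! Primitive recursiveness. -/

theorem primrec_linX (σ : Bool) (M : ℕ) : Primrec (linX σ M) := by
  cases σ
  · show Primrec fun r : ℕ => ([(0, r, 0, 0), (0, M, 1, 0)] : Code)
    exact Primrec.list_cons.comp (Primrec.pair (Primrec.const 0) (Primrec.pair Primrec.id
      (Primrec.const (0, 0)))) (Primrec.const _)
  · show Primrec fun r : ℕ => ([(r, 0, 0, 0), (M, 0, 1, 0)] : Code)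
    exact Primrec.list_cons.comp (Primrec.pair Primrec.id (Primrec.const (0, 0, 0)))
      (Primrec.const _)

theorem primrec_linY (σ : Bool) (M : ℕ) : Primrec (linY σ M) := by
  cases σ
  · show Primrec fun r : ℕ => ([(0, r, 0, 0), (0, M, 0, 1)] : Code)
    exact Primrec.list_cons.comp (Primrec.pair (Primrec.const 0) (Primrec.pair Primrec.id
      (Primrec.const (0, 0)))) (Primrec.const _)
  · show Primrec fun r : ℕ => ([(r, 0, 0, 0), (M, 0, 0, 1)] : Code)
    exact Primrec.list_cons.comp (Primrec.pair Primrec.id (Primrec.const (0, 0, 0)))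
      (Primrec.const _)

theorem primrec_tr (σ τ : Bool) (M : ℕ) :
    Primrec fun p : Code × ℕ × ℕ => tr σ τ M p.1 p.2.1 p.2.2 := by
  have h1 : Primrec fun p : Code × ℕ × ℕ => linX σ M p.2.1 :=
    (primrec_linX σ M).comp (Primrec.fst.comp Primrec.snd)
  have h2 : Primrec fun p : Code × ℕ × ℕ => linY τ M p.2.2 :=
    (primrec_linY τ M).comp (Primrec.snd.comp Primrec.snd)
  have h3 : Primrec fun p : Code × ℕ × ℕ => (p.1, linX σ M p.2.1, linY τ M p.2.2) :=
    Primrec.pair Primrec.fst (Primrec.pair h1 h2)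
  exact (primrec_compC.comp h3).of_eq fun p => by rw [tr]

theorem primrec_boxCode : Primrec₂ boxCode := by
  have h1 : Primrec fun p : Code × ℕ => ([(0, p.2, 0, 0), (1, 0, 1, 0)] : Code) :=
    Primrec.list_cons.comp (Primrec.pair (Primrec.const 0) (Primrec.pair Primrec.snd
      (Primrec.const (0, 0)))) (Primrec.const _)
  have h2 : Primrec fun p : Code × ℕ => ([(0, p.2, 0, 0), (1, 0, 0, 1)] : Code) :=
    Primrec.list_cons.comp (Primrec.pair (Primrec.const 0) (Primrec.pair Primrec.snd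
      (Primrec.const (0, 0)))) (Primrec.const _)
  have h3 : Primrec fun p : Code × ℕ => (p.1, ([(0, p.2, 0, 0), (1, 0, 1, 0)] : Code),
      ([(0, p.2, 0, 0), (1, 0, 0, 1)] : Code)) :=
    Primrec.pair Primrec.fst (Primrec.pair h1 h2)
  exact (primrec_compC.comp h3).of_eq fun p => by rw [boxCode]

theorem primrec_cnt : Primrec₂ cnt := by
  have h1 : Primrec fun p : Code × ℕ => boxCode p.1 p.2 := primrec_boxCode
  have h2 : Primrec fun p : Code × ℕ => 2 * p.2 + 1 :=
    Primrec.succ.comp (Primrec.nat_mul.comp (Primrec.const 2) Primrec.snd)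
  have h3 : Primrec fun p : Code × ℕ => solList (boxCode p.1 p.2) (2 * p.2 + 1) :=
    primrec_solList.comp h1 h2
  exact (Primrec.list_length.comp h3).of_eq fun p => by rw [cnt]

/-! Counting points in a box. -/

theorem cnt_eq (c : Code) (B : ℕ) :
    cnt c B = Set.ncard {p ∈ intPoints (toPoly c) | |p.1| ≤ B ∧ |p.2| ≤ B} := by
  have himg : {p ∈ intPoints (toPoly c) | |p.1| ≤ B ∧ |p.2| ≤ B} =
      (fun p : ℕ × ℕ => ((p.1 : ℤ) - B, (p.2 : ℤ) - B)) ''
        ((solList (boxCode c B) (2 * B + 1)).toFinset : Set (ℕ × ℕ)) := by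
    ext ⟨x, y⟩
    simp only [Set.mem_sep_iff, Set.mem_image, List.coe_toFinset]
    constructor
    · rintro ⟨hp, hx, hy⟩
      rw [abs_le] at hx hy
      refine ⟨((x + B).toNat, (y + B).toNat), ?_, ?_⟩
      · show _ ∈ solList _ _
        rw [mem_solList, natSol_iff, toPoly_boxCode, mem_intPoints_aff]
        refine ⟨by simp only; omega, by simp only; omega, ?_⟩
        have h1 : (-(B : ℤ) + 1 * ((x + B).toNat : ℤ)) = x := by omega
        have h2 : (-(B : ℤ) + 1 * ((y + B).toNat : ℤ)) = y := by omega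
        simp only [h1, h2]
        exact hp
      · simp only [Prod.mk.injEq]
        omega
    · rintro ⟨⟨X, Y⟩, hm, heq⟩
      simp only [Prod.mk.injEq] at heq
      have hm' : (X, Y) ∈ solList (boxCode c B) (2 * B + 1) := hm
      rw [mem_solList, natSol_iff, toPoly_boxCode, mem_intPoints_aff] at hm'
      obtain ⟨h1, h2, h3⟩ := hm'
      simp only at h1 h2 h3
      refine ⟨?_, ?_, ?_⟩
      · have e1 : (-(B : ℤ) + 1 * (X : ℤ)) = x := by omega
        have e2 : (-(B : ℤ) + 1 * (Y : ℤ)) = y := by omega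
        rw [e1, e2] at h3
        exact h3
      · rw [abs_le]; omega
      · rw [abs_le]; omega
  rw [himg, Set.ncard_image_of_injective, Set.ncard_coe_finset,
    List.toFinset_card_of_nodup (nodup_solList _ _), cnt]
  rintro ⟨x, y⟩ ⟨x', y'⟩ h
  simp only [Prod.mk.injEq, sub_left_inj, Nat.cast_inj] at h
  exact Prod.ext h.1 h.2

/-- finite sets of integer points lie in a box -/
theorem exists_box {T : Set (ℤ × ℤ)} (h : T.Finite) : ∃ B : ℕ, ∀ p ∈ T, |p.1| ≤ B ∧ |p.2| ≤ B := by
  obtain ⟨B, hB⟩ := (h.image fun p : ℤ × ℤ => p.1.natAbs + p.2.natAbs).bddAbove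
  refine ⟨B, fun p hp => ?_⟩
  have : p.1.natAbs + p.2.natAbs ≤ B := hB ⟨p, hp, rfl⟩
  rw [Int.abs_eq_natAbs, Int.abs_eq_natAbs]
  omega

theorem cnt_of_box (c : Code) (B : ℕ) (h : ∀ p ∈ intPoints (toPoly c), |p.1| ≤ B ∧ |p.2| ≤ B) :
    cnt c B = (intPoints (toPoly c)).ncard := by
  rw [cnt_eq]
  congr 1
  ext p
  exact ⟨fun hp => hp.1, fun hp => ⟨hp, h p hp⟩⟩

theorem box_of_cnt (c : Code) (B : ℕ) (hf : (intPoints (toPoly c)).Finite)
    (h : cnt c B = (intPoints (toPoly c)).ncard) :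
    ∀ p ∈ intPoints (toPoly c), |p.1| ≤ B ∧ |p.2| ≤ B := by
  rw [cnt_eq] at h
  have hsub : {p ∈ intPoints (toPoly c) | |p.1| ≤ B ∧ |p.2| ≤ B} ⊆ intPoints (toPoly c) :=
    fun p hp => hp.1
  have := Set.eq_of_subset_of_ncard_le hsub h.ge hf
  intro p hp
  rw [← this] at hp
  exact hp.2

/-! Combining algorithms. -/

theorem combine {ι : Type} (l : List ι) (P : ι → Code → ℕ → Prop)
    (mono : ∀ i c m n, m ≤ n → P i c m → P i c n) (Cl : Code → Prop)
    (h : ∀ i ∈ l, ∃ A : Code →. ℕ, Partrec A ∧ ∀ c, Cl c → ∃ B ∈ A c, P i c B) :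
    ∃ A : Code →. ℕ, Partrec A ∧ ∀ c, Cl c → ∃ B ∈ A c, ∀ i ∈ l, P i c B := by
  induction l with
  | nil =>
    exact ⟨fun _ => Part.some 0, (Computable.const 0).partrec,
      fun c _ => ⟨0, Part.mem_some 0, by simp⟩⟩
  | cons i l ih =>
    obtain ⟨A, hA, hA'⟩ := ih fun j hj => h j (List.mem_cons_of_mem _ hj)
    obtain ⟨A₁, hA₁, hA₁'⟩ := h i List.mem_cons_self
    refine ⟨fun c => (A c).bind fun m => (A₁ c).map fun n => m + n, ?_, ?_⟩
    · refine hA.bind (Partrec.map (hA₁.comp Computable.fst) ?_)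
      exact (Primrec.nat_add.comp (Primrec.snd.comp Primrec.fst) Primrec.snd).to_comp
    · intro c hc
      obtain ⟨m, hm, hm'⟩ := hA' c hc
      obtain ⟨n, hn, hn'⟩ := hA₁' c hc
      refine ⟨m + n, Part.mem_bind hm (Part.mem_map _ hn), ?_⟩
      intro j hj
      rcases List.mem_cons.1 hj with rfl | hj
      · exact mono _ _ _ _ (Nat.le_add_left _ _) hn'
      · exact mono _ _ _ _ (Nat.le_add_right _ _) (hm' j hj)

/-- search: a partial predicate that is defined for all `n` and true for some `n` -/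
theorem search (p : Code → ℕ →. Bool) (hp : Partrec₂ p) (P : Code → ℕ → Prop) (Cl : Code → Prop)
    (h1 : ∀ c, Cl c → ∀ n, ∃ b ∈ p c n, (b = true → P c n))
    (h2 : ∀ c, Cl c → ∃ n, true ∈ p c n) :
    ∃ A : Code →. ℕ, Partrec A ∧ ∀ c, Cl c → ∃ B ∈ A c, P c B := by
  refine ⟨fun c => Nat.rfind (p c), Partrec.rfind hp, ?_⟩
  intro c hc
  have hdom : (Nat.rfind (p c)).Dom := by
    rw [Nat.rfind_dom']
    obtain ⟨n, hn⟩ := h2 c hc
    refine ⟨n, hn, fun {m} _ => ?_⟩
    obtain ⟨b, hb, _⟩ := h1 c hc m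
    exact Part.dom_iff_mem.2 ⟨b, hb⟩
  refine ⟨(Nat.rfind (p c)).get hdom, Part.get_mem hdom, ?_⟩
  have ht := Nat.rfind_spec (Part.get_mem hdom)
  obtain ⟨b, hb, hbP⟩ := h1 c hc ((Nat.rfind (p c)).get hdom)
  have : b = true := Part.mem_unique hb ht
  exact hbP this

/-! The three algorithms. -/

/-- an algorithm bounding the integer points on the class -/
def HasBound (S : Set ℕ) : Prop :=
  ∃ A : Code →. ℕ, Partrec A ∧ ∀ c, InClass S (toPoly c) →
    ∃ B ∈ A c, ∀ p ∈ intPoints (toPoly c), |p.1| ≤ B ∧ |p.2| ≤ B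

/-- an algorithm deciding natural solvability on the restricted class -/
def HasDecision (S : Set ℕ) (M : ℕ) : Prop :=
  ∃ D : Code →. Bool, Partrec D ∧ ∀ c, InClass S (toPoly c) → DivBy M (toPoly c) →
    ∃ b ∈ D c, (b = true ↔ ∃ p ∈ intPoints (toPoly c), 0 ≤ p.1 ∧ 0 ≤ p.2)

/-- an algorithm counting the integer points on the restricted class -/
def HasCount (S : Set ℕ) (M : ℕ) : Prop :=
  ∃ N : Code →. ℕ, Partrec N ∧ ∀ c, InClass S (toPoly c) → DivBy M (toPoly c) →
    (intPoints (toPoly c)).ncard ∈ N c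

theorem decision_of_bound {S : Set ℕ} (M : ℕ) (h : HasBound S) : HasDecision S M := by
  obtain ⟨A, hA, hA'⟩ := h
  refine ⟨fun c => (A c).map fun B => decide (0 < (solList c (B + 1)).length), ?_, ?_⟩
  · refine hA.map (Primrec.to_comp ?_)
    refine PrimrecPred.decide ?_
    have h1 : Primrec fun p : Code × ℕ => (solList p.1 (p.2 + 1)).length :=
      Primrec.list_length.comp (primrec_solList.comp Primrec.fst (Primrec.succ.comp Primrec.snd))
    exact PrimrecRel.comp Primrec.nat_lt (Primrec.const 0) h1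
  · intro c hc _
    obtain ⟨B, hB, hB'⟩ := hA' c hc
    refine ⟨_, Part.mem_map _ hB, ?_⟩
    rw [decide_eq_true_iff, List.length_pos_iff_exists_mem]
    constructor
    · rintro ⟨p, hp⟩
      rw [mem_solList, natSol_iff] at hp
      exact ⟨_, hp.2.2, by simp, by simp⟩
    · rintro ⟨⟨x, y⟩, hp, hx, hy⟩
      have := hB' _ hp
      simp only at hx hy this
      rw [abs_of_nonneg hx, abs_of_nonneg hy] at this
      refine ⟨(x.toNat, y.toNat), ?_⟩
      rw [mem_solList, natSol_iff]
      refine ⟨by simp only; omega, by simp only; omega, ?_⟩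
      simp only [Int.toNat_of_nonneg hx, Int.toNat_of_nonneg hy]
      exact hp

theorem count_of_bound {S : Set ℕ} (M : ℕ) (h : HasBound S) : HasCount S M := by
  obtain ⟨A, hA, hA'⟩ := h
  refine ⟨fun c => (A c).map fun B => cnt c B, hA.map (Primrec.to_comp primrec_cnt), ?_⟩
  intro c hc _
  obtain ⟨B, hB, hB'⟩ := hA' c hc
  rw [← cnt_of_box c B hB']
  exact Part.mem_map _ hB

theorem inClass_tr {S : Set ℕ} {c : Code} (h : InClass S (toPoly c)) (σ τ : Bool) {M : ℕ}
    (hM : 0 < M) (r s : ℕ) : InClass S (toPoly (tr σ τ M c r s)) := by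
  rw [toPoly_tr]
  have : (M : ℤ) ≠ 0 := by exact_mod_cast hM.ne'
  exact inClass_aff h _ _ _ _ (mul_ne_zero (sg_ne σ) this) (mul_ne_zero (sg_ne τ) this)

theorem divBy_tr (c : Code) (σ τ : Bool) (M : ℕ) (r s : ℕ) :
    DivBy M (toPoly (tr σ τ M c r s)) := by
  rw [toPoly_tr]
  exact divBy_aff _ _ _ (dvd_mul_left _ _) (dvd_mul_left _ _)

theorem mem_tr (c : Code) (σ τ : Bool) (M : ℕ) (r s : ℕ) (X Y : ℤ) :
    (X, Y) ∈ intPoints (toPoly (tr σ τ M c r s)) ↔
      (sg σ * (r + M * X), sg τ * (s + M * Y)) ∈ intPoints (toPoly c) := by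
  rw [toPoly_tr, mem_intPoints_aff]
  ring_nf

theorem abs_sg_mul (σ : Bool) (x : ℤ) : |sg σ * x| = |x| := by
  cases σ <;> simp [sg]

attribute [local irreducible] tr cnt

theorem partrec_not {D : Code →. Bool} (hD : Partrec D) {f : Code → ℕ → Code}
    (hf : Primrec₂ f) : Partrec₂ fun c n => (D (f c n)).map not :=
  Partrec.map (Partrec.comp hD (Primrec₂.to_comp hf)) (Primrec.not.to_comp.comp Computable.snd)

theorem partrec_cmp {N : Code →. ℕ} (hN : Partrec N) {f : Code → Code}
    (hf : Primrec f) : Partrec₂ fun c n => (N (f c)).map fun k => decide (cnt (f c) n = k) := by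
  have h1 : Computable fun p : Code × ℕ => f p.1 := (hf.comp Primrec.fst).to_comp
  refine Partrec.map (Partrec.comp hN h1) (Primrec.to_comp ?_)
  refine PrimrecPred.decide ?_
  have h4 : Primrec fun p : (Code × ℕ) × ℕ => cnt (f p.1.1) p.1.2 :=
    primrec_cnt.comp (hf.comp (Primrec.fst.comp Primrec.fst)) (Primrec.snd.comp Primrec.fst)
  exact PrimrecRel.comp Primrec.eq h4 Primrec.snd

theorem primrec_tr_Y (σ τ : Bool) (M r s : ℕ) :
    Primrec₂ fun (c : Code) (n : ℕ) => tr σ τ M c r (s + n * M) := by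
  have h1 : Primrec fun p : Code × ℕ => s + p.2 * M :=
    Primrec.nat_add.comp (Primrec.const s) (Primrec.nat_mul.comp Primrec.snd (Primrec.const M))
  have h2 : Primrec fun p : Code × ℕ => (p.1, r, s + p.2 * M) :=
    Primrec.pair Primrec.fst (Primrec.pair (Primrec.const r) h1)
  exact (primrec_tr σ τ M).comp h2

theorem primrec_tr_X (σ τ : Bool) (M r s : ℕ) :
    Primrec₂ fun (c : Code) (n : ℕ) => tr σ τ M c (r + n * M) s := by
  have h1 : Primrec fun p : Code × ℕ => r + p.2 * M :=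
    Primrec.nat_add.comp (Primrec.const r) (Primrec.nat_mul.comp Primrec.snd (Primrec.const M))
  have h2 : Primrec fun p : Code × ℕ => (p.1, r + p.2 * M, s) :=
    Primrec.pair Primrec.fst (Primrec.pair h1 (Primrec.const s))
  exact (primrec_tr σ τ M).comp h2

theorem primrec_tr_0 (σ τ : Bool) (M r s : ℕ) :
    Primrec fun (c : Code) => tr σ τ M c r s :=
  (primrec_tr σ τ M).comp (Primrec.pair Primrec.id (Primrec.const (r, s)))

theorem bound_of_decision {S : Set ℕ} {M : ℕ} (hM : 0 < M) (h : HasDecision S M) :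
    HasBound S := by
  obtain ⟨D, hD, hD'⟩ := h
  let P : Bool × Bool × ℕ × ℕ × Bool → Code → ℕ → Prop := fun i c n => ∀ X Y : ℕ,
    (sg i.1 * (i.2.2.1 + M * X), sg i.2.1 * (i.2.2.2.1 + M * Y)) ∈ intPoints (toPoly c) →
      cond i.2.2.2.2 X Y < n
  have key : ∀ i : Bool × Bool × ℕ × ℕ × Bool, ∃ A : Code →. ℕ, Partrec A ∧
      ∀ c, InClass S (toPoly c) → ∃ B ∈ A c, P i c B := by
    rintro ⟨σ, τ, r, s, d⟩
    cases d
    · -- bound for `Y`
      refine search (fun c n => (D (tr σ τ M c r (s + n * M))).map not) ?_ _ _ ?_ ?_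
      · exact partrec_not hD (primrec_tr_Y σ τ M r s)
      · intro c hc n
        obtain ⟨b, hb, hb'⟩ := hD' _ (inClass_tr hc σ τ hM r (s + n * M)) (divBy_tr _ _ _ _ _ _)
        refine ⟨!b, Part.mem_map _ hb, fun hnb X Y hXY => ?_⟩
        simp only [cond_false]
        by_contra hlt
        have hb0 : b = false := by simpa using hnb
        rw [hb0] at hb'
        refine absurd (hb'.2 ⟨((X : ℤ), ((Y - n : ℕ) : ℤ)), ?_, by simp, by simp⟩) (by simp)
        rw [mem_tr]
        convert hXY using 2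
        push_cast [Nat.cast_sub (not_lt.1 hlt)]
        ring
      · intro c hc
        obtain ⟨B, hB⟩ := exists_box hc.2.2
        obtain ⟨b, hb, hb'⟩ := hD' _ (inClass_tr hc σ τ hM r (s + (B + 1) * M))
          (divBy_tr _ _ _ _ _ _)
        refine ⟨B + 1, ?_⟩
        have hbf : b = false := by
          by_contra hne
          obtain ⟨⟨X, Y⟩, hp, hX, hY⟩ := hb'.1 (by simpa using hne)
          rw [mem_tr] at hp
          have h1 := (hB _ hp).2
          simp only at hX hY h1
          rw [abs_sg_mul] at h1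
          push_cast at h1
          have hMY : (0 : ℤ) ≤ M * Y := mul_nonneg (by positivity) hY
          have hM1 : (1 : ℤ) ≤ M := by exact_mod_cast hM
          rw [abs_of_nonneg (by positivity)] at h1
          nlinarith
        rw [hbf] at hb
        exact Part.mem_map not hb
    · -- bound for `X`
      refine search (fun c n => (D (tr σ τ M c (r + n * M) s)).map not) ?_ _ _ ?_ ?_
      · exact partrec_not hD (primrec_tr_X σ τ M r s)
      · intro c hc n
        obtain ⟨b, hb, hb'⟩ := hD' _ (inClass_tr hc σ τ hM (r + n * M) s) (divBy_tr _ _ _ _ _ _)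
        refine ⟨!b, Part.mem_map _ hb, fun hnb X Y hXY => ?_⟩
        simp only [cond_true]
        by_contra hlt
        have hb0 : b = false := by simpa using hnb
        rw [hb0] at hb'
        refine absurd (hb'.2 ⟨(((X - n : ℕ) : ℤ), (Y : ℤ)), ?_, by simp, by simp⟩) (by simp)
        rw [mem_tr]
        convert hXY using 2
        push_cast [Nat.cast_sub (not_lt.1 hlt)]
        ring
      · intro c hc
        obtain ⟨B, hB⟩ := exists_box hc.2.2
        obtain ⟨b, hb, hb'⟩ := hD' _ (inClass_tr hc σ τ hM (r + (B + 1) * M) s)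
          (divBy_tr _ _ _ _ _ _)
        refine ⟨B + 1, ?_⟩
        have hbf : b = false := by
          by_contra hne
          obtain ⟨⟨X, Y⟩, hp, hX, hY⟩ := hb'.1 (by simpa using hne)
          rw [mem_tr] at hp
          have h1 := (hB _ hp).1
          simp only at hX hY h1
          rw [abs_sg_mul] at h1
          push_cast at h1
          have hMX : (0 : ℤ) ≤ M * X := mul_nonneg (by positivity) hX
          have hM1 : (1 : ℤ) ≤ M := by exact_mod_cast hM
          rw [abs_of_nonneg (by positivity)] at h1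
          nlinarith
        rw [hbf] at hb
        exact Part.mem_map not hb
  obtain ⟨A, hA, hA'⟩ := combine
    ((Finset.univ ×ˢ Finset.univ ×ˢ Finset.range M ×ˢ Finset.range M ×ˢ Finset.univ :
      Finset (Bool × Bool × ℕ × ℕ × Bool)).toList) P
    (fun i c m n hmn h X Y hXY => lt_of_lt_of_le (h X Y hXY) hmn)
    (fun c => InClass S (toPoly c)) (fun i _ => key i)
  refine ⟨fun c => (A c).map fun B => M * (B + 1), hA.map ?_, ?_⟩
  · exact (Primrec.nat_mul.comp (Primrec.const M) (Primrec.succ.comp Primrec.snd)).to_comp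
  · intro c hc
    obtain ⟨B, hB, hB'⟩ := hA' c hc
    refine ⟨M * (B + 1), Part.mem_map _ hB, ?_⟩
    rintro ⟨x, y⟩ hp
    have hdec : ∀ z : ℤ, ∃ σ : Bool, z = sg σ * ((z.natAbs % M : ℕ) + M * (z.natAbs / M : ℕ)) := by
      intro z
      have h0 : (((z.natAbs % M : ℕ) : ℤ) + M * (z.natAbs / M : ℕ)) = z.natAbs := by
        exact_mod_cast Nat.mod_add_div _ _
      rw [h0]
      rcases le_or_gt 0 z with hz | hz
      · refine ⟨true, ?_⟩
        rw [sg, if_pos rfl]; omega
      · refine ⟨false, ?_⟩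
        rw [sg, if_neg (by simp)]; omega
    obtain ⟨σ, hσ⟩ := hdec x
    obtain ⟨τ, hτ⟩ := hdec y
    have hmem : ∀ d : Bool, (σ, τ, x.natAbs % M, y.natAbs % M, d) ∈
        ((Finset.univ ×ˢ Finset.univ ×ˢ Finset.range M ×ˢ Finset.range M ×ˢ Finset.univ :
          Finset (Bool × Bool × ℕ × ℕ × Bool)).toList) := by
      intro d
      rw [Finset.mem_toList]
      simp [Nat.mod_lt _ hM]
    have hp' : (sg σ * ((x.natAbs % M : ℕ) + M * (x.natAbs / M : ℕ)),
        sg τ * ((y.natAbs % M : ℕ) + M * (y.natAbs / M : ℕ))) ∈ intPoints (toPoly c) := by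
      rw [← hσ, ← hτ]; exact hp
    have hX := hB' _ (hmem true) (x.natAbs / M) (y.natAbs / M) hp'
    have hY := hB' _ (hmem false) (x.natAbs / M) (y.natAbs / M) hp'
    simp only [cond_true, cond_false] at hX hY
    have hfin : ∀ n : ℕ, n / M < B → n ≤ M * (B + 1) := by
      intro n hn
      have h1 := Nat.mod_add_div n M
      have h2 := Nat.mod_lt n hM
      have h3 : M * (n / M) ≤ M * B := Nat.mul_le_mul_left _ hn.le
      rw [mul_add]
      omega
    rw [Int.abs_eq_natAbs, Int.abs_eq_natAbs]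
    exact ⟨by exact_mod_cast hfin _ hX, by exact_mod_cast hfin _ hY⟩

theorem bound_of_count {S : Set ℕ} {M : ℕ} (hM : 0 < M) (h : HasCount S M) : HasBound S := by
  obtain ⟨N, hN, hN'⟩ := h
  let P : ℕ × ℕ → Code → ℕ → Prop := fun i c n => ∀ X Y : ℤ,
    (sg true * (i.1 + M * X), sg true * (i.2 + M * Y)) ∈ intPoints (toPoly c) →
      |X| ≤ n ∧ |Y| ≤ n
  have key : ∀ i : ℕ × ℕ, ∃ A : Code →. ℕ, Partrec A ∧
      ∀ c, InClass S (toPoly c) → ∃ B ∈ A c, P i c B := by
    rintro ⟨r, s⟩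
    refine search (fun c n => (N (tr true true M c r s)).map fun k =>
      decide (cnt (tr true true M c r s) n = k)) ?_ _ _ ?_ ?_
    · exact partrec_cmp hN (primrec_tr_0 true true M r s)
    · intro c hc n
      have hcl := inClass_tr hc true true hM r s
      refine ⟨_, Part.mem_map _ (hN' _ hcl (divBy_tr _ _ _ _ _ _)), fun hd X Y hXY => ?_⟩
      rw [decide_eq_true_iff] at hd
      exact box_of_cnt _ _ hcl.2.2 hd (X, Y) ((mem_tr _ _ _ _ _ _ _ _).2 hXY)
    · intro c hc
      have hcl := inClass_tr hc true true hM r s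
      obtain ⟨B, hB⟩ := exists_box hcl.2.2
      refine ⟨B, ?_⟩
      have := Part.mem_map (fun k => decide (cnt (tr true true M c r s) B = k))
        (hN' _ hcl (divBy_tr _ _ _ _ _ _))
      rwa [decide_eq_true (cnt_of_box _ _ hB)] at this
  obtain ⟨A, hA, hA'⟩ := combine
    ((Finset.range M ×ˢ Finset.range M : Finset (ℕ × ℕ)).toList) P
    (fun i c m n hmn h X Y hXY => ⟨(h X Y hXY).1.trans (by exact_mod_cast hmn),
      (h X Y hXY).2.trans (by exact_mod_cast hmn)⟩)
    (fun c => InClass S (toPoly c)) (fun i _ => key i)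
  refine ⟨fun c => (A c).map fun B => M * (B + 1), hA.map ?_, ?_⟩
  · exact (Primrec.nat_mul.comp (Primrec.const M) (Primrec.succ.comp Primrec.snd)).to_comp
  · intro c hc
    obtain ⟨B, hB, hB'⟩ := hA' c hc
    refine ⟨M * (B + 1), Part.mem_map _ hB, ?_⟩
    rintro ⟨x, y⟩ hp
    have hM' : (0 : ℤ) < M := by exact_mod_cast hM
    have hdec : ∀ z : ℤ, z = sg true * (((z % M).toNat : ℕ) + M * (z / M)) := by
      intro z
      have h0 := Int.emod_add_mul_ediv z M
      have h1 := Int.emod_nonneg z hM'.ne'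
      rw [Int.toNat_of_nonneg h1, h0]
      simp [sg]
    have hlt : ∀ z : ℤ, (z % M).toNat < M := by
      intro z
      have h1 := Int.emod_nonneg z hM'.ne'
      have h2 := Int.emod_lt_of_pos z hM'
      omega
    have hmem : ((x % M).toNat, (y % M).toNat) ∈
        ((Finset.range M ×ˢ Finset.range M : Finset (ℕ × ℕ)).toList) := by
      rw [Finset.mem_toList]
      simp [hlt]
    have hp' : (sg true * (((x % M).toNat : ℕ) + M * (x / M)),
        sg true * (((y % M).toNat : ℕ) + M * (y / M))) ∈ intPoints (toPoly c) := by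
      rw [← hdec, ← hdec]; exact hp
    have hXY := hB' _ hmem (x / M) (y / M) hp'
    have hfin : ∀ z : ℤ, |z / M| ≤ B → |z| ≤ M * (B + 1) := by
      intro z hz
      have h0 := Int.emod_add_mul_ediv z M
      have h1 := Int.emod_nonneg z hM'.ne'
      have h2 := Int.emod_lt_of_pos z hM'
      rw [abs_le] at hz ⊢
      constructor
      · nlinarith
      · nlinarith
    push_cast
    exact ⟨hfin x hXY.1, hfin y hXY.2⟩

theorem main_tfae (M : ℕ) (hM : 0 < M) (S : Set ℕ) :
    [HasBound S, HasDecision S M, HasCount S M].TFAE := by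
  tfae_have 1 → 2 := decision_of_bound M
  tfae_have 2 → 1 := bound_of_decision hM
  tfae_have 1 → 3 := count_of_bound M
  tfae_have 3 → 1 := bound_of_count hM
  tfae_finish

end Pool.Agent.H8.Siegel
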